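import Pool.Agent.TNA.Dyad
import Pool.Agent.TN.Tail

set_option autoImplicit false

/-!
# Almost all `n`

Recipe for `card_Pd_small`. Either `P n ≤ y`: `TN.card_smooth_le` (divide by `log N / 2`); or
`q = P n > y` has an even exponent in `n` (otherwise `q ≤ Pd n`, `le_Pd`), so `q² ∣ n` with `q > y`:
`TN.card_sq_dvd_le`.

Recipe for `almost_all`. `Λ = log N`. Let `I = ⌊√Λ⌋`. Exceptional `n`: squares (`TN.card_squares_le`),
`F n ≤ 2^I` (then `Pd n ≤ 2^I` by `Pd_le_F`: `card_Pd_small` gives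
`√N + 4 N (I log 2 + log 4)/Λ + 2N/2^I ≤ C N/√Λ`), and for `I ≤ i ≤ 2 Λ + 4` the sets of `dyad`
(`2^i < F n ≤ 2^(i+1)`; `F n ≤ 3 N` so `i ≤ log₂(3N)`): for these `4/i^(1/4) ≤ 1/Λ^(1/10)`
(`i^(1/4) ≥ c Λ^(1/8)`) and
`∑ N/i^(5/4) ≤ N I^(-1/4) ∑_{i ≤ 2Λ+4} 1/i ≤ N C Λ^(-1/8) (1 + log(2Λ+5))`. Sum `≤ N/Λ^(1/10)` for
large `N`. (`F n ≤ tn n` is `F_le_tn`.)
-/

namespace Pool.Agent.TNA

open Pool.Agent.TN Finset

/-- few `n ≤ N` have a small `Pd n` -/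
theorem card_Pd_small (N y : ℕ) (hN : 2 ≤ N) (hy : 1 ≤ y) :
    ({n | (1 ≤ n ∧ n ≤ N) ∧ Pd n ≤ y}.ncard : ℝ) ≤
      √N + 4 * N * (Real.log y + Real.log 4) / Real.log N + 2 * N / y := by
  have hfin : ∀ p : ℕ → Prop, {n | (1 ≤ n ∧ n ≤ N) ∧ p n}.Finite := fun p =>
    (Set.finite_Icc 1 N).subset (fun n hn => hn.1)
  have hsub : {n | (1 ≤ n ∧ n ≤ N) ∧ Pd n ≤ y} ⊆
      {n | (1 ≤ n ∧ n ≤ N) ∧ P n ≤ y} ∪ {n | (1 ≤ n ∧ n ≤ N) ∧ ∃ q, y < q ∧ q ^ 2 ∣ n} := by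
    rintro n ⟨hn, hPd⟩
    by_cases hP : P n ≤ y
    · exact Or.inl ⟨hn, hP⟩
    · right
      refine ⟨hn, P n, not_le.mp hP, ?_⟩
      have hn2 : 2 ≤ n := by
        by_contra hlt
        have h1 : n = 1 := by omega
        rw [h1] at hP
        apply hP
        simp [P]
      have hp := P_prime hn2
      have hne : Even (n.factorization (P n)) := by
        rw [← Nat.not_odd_iff_even]
        intro hodd
        exact hP ((le_Pd hodd).trans hPd)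
      have hpos : 0 < n.factorization (P n) :=
        hp.factorization_pos_of_dvd (by omega) (P_dvd hn2)
      have h2 : 2 ≤ n.factorization (P n) := by
        obtain ⟨k, hk⟩ := hne
        omega
      exact (hp.pow_dvd_iff_le_factorization (by omega)).mpr h2
  have hcard : ({n | (1 ≤ n ∧ n ≤ N) ∧ Pd n ≤ y}.ncard : ℝ) ≤
      ({n | (1 ≤ n ∧ n ≤ N) ∧ P n ≤ y}.ncard : ℝ) +
        ({n | (1 ≤ n ∧ n ≤ N) ∧ ∃ q, y < q ∧ q ^ 2 ∣ n}.ncard : ℝ) := by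
    have h1 := Set.ncard_le_ncard hsub ((hfin _).union (hfin _))
    have h2 := Set.ncard_union_le {n | (1 ≤ n ∧ n ≤ N) ∧ P n ≤ y}
      {n | (1 ≤ n ∧ n ≤ N) ∧ ∃ q, y < q ∧ q ^ 2 ∣ n}
    exact_mod_cast h1.trans h2
  have hlog : 0 < Real.log N := Real.log_pos (by exact_mod_cast hN)
  have h3 := card_smooth_le N y (by omega) hy
  have h4 := card_sq_dvd_le N y hy
  have hy0 : (0 : ℝ) < y := by exact_mod_cast hy
  have h5 : ({n | (1 ≤ n ∧ n ≤ N) ∧ P n ≤ y}.ncard : ℝ) ≤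
      √N + 4 * N * (Real.log y + Real.log 4) / Real.log N := by
    rw [← sub_le_iff_le_add', le_div_iff₀ hlog]
    nlinarith
  have h6 : (N : ℝ) / y ≤ 2 * N / y := by
    apply div_le_div_of_nonneg_right _ hy0.le
    have : (0 : ℝ) ≤ N := Nat.cast_nonneg N
    linarith
  linarith

private theorem dens_small (u : ℝ) (hu : 10 ^ 6 ≤ u) :
    10 * (Real.log 3 + 40 * Real.log u) ≤ u := by
  have hu0 : 0 < u := by linarith [show (0 : ℝ) < 10 ^ 6 by norm_num]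
  have h1 : Real.log u = 2 * Real.log (√u) := by
    rw [Real.log_sqrt hu0.le]; ring
  have hs : 1000 ≤ √u := by
    apply Real.le_sqrt_of_sq_le
    linarith [show (1000 : ℝ) ^ 2 = 10 ^ 6 by norm_num]
  have h2 : Real.log (√u) ≤ √u - 1 := Real.log_le_sub_one_of_pos (by linarith)
  have h3 : Real.log 3 ≤ 3 - 1 := Real.log_le_sub_one_of_pos (by norm_num)
  have h4 : u = √u * √u := (Real.mul_self_sqrt hu0.le).symm
  nlinarith

theorem almost_all : ∃ N₀ : ℕ, 2 ≤ N₀ ∧ ∀ N : ℕ, N₀ ≤ N →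
    ({n | (1 ≤ n ∧ n ≤ N) ∧ ¬ (¬ IsSquare n ∧ F n ≤ tn n ∧
      (tn n : ℝ) ≤ (1 + 1 / (Real.log N) ^ ((1 : ℝ) / 10)) * F n)}.ncard : ℝ) ≤
      N / (Real.log N) ^ ((1 : ℝ) / 10) := by
  obtain ⟨i₀, hi₀, hd⟩ := dyad
  have htend : Filter.Tendsto (fun N : ℕ => (Real.log N) ^ ((1 : ℝ) / 40)) Filter.atTop Filter.atTop :=
    (tendsto_rpow_atTop (by norm_num)).comp (Real.tendsto_log_atTop.comp tendsto_natCast_atTop_atTop)
  obtain ⟨N₁, hN₁⟩ := (Filter.tendsto_atTop.mp htend (max (10 ^ 6) (2 * i₀))).exists_forall_of_atTop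
  refine ⟨max 2 N₁, le_max_left _ _, fun N hN => ?_⟩
  have hN2 : 2 ≤ N := (le_max_left _ _).trans hN
  have hu' := hN₁ N ((le_max_right _ _).trans hN)
  have hΛ0 : 0 ≤ Real.log N := Real.log_natCast_nonneg N
  set Λ := Real.log N with hΛ
  set u := Λ ^ ((1 : ℝ) / 40) with hu_def
  have hu : 10 ^ 6 ≤ u := (le_max_left _ _).trans hu'
  have hui : 2 * (i₀ : ℝ) ≤ u := (le_max_right _ _).trans hu'
  have hu1 : 1 ≤ u := le_trans (by norm_num) hu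
  have hu0 : 0 < u := by linarith
  have hΛu : Λ = u ^ 40 := by
    rw [hu_def, ← Real.rpow_natCast, ← Real.rpow_mul hΛ0]; norm_num
  have h10 : Λ ^ ((1 : ℝ) / 10) = u ^ 4 := by
    rw [hu_def, ← Real.rpow_natCast, ← Real.rpow_mul hΛ0]; norm_num
  have hNr : (0 : ℝ) < N := by exact_mod_cast (by omega : 0 < N)
  rw [h10]
  -- powers
  have hp1 : u ≤ u ^ 20 := le_self_pow₀ hu1 (by norm_num)
  have hp2 : (10 : ℝ) ^ 6 ≤ u ^ 20 := hu.trans hp1
  set I := ⌊u ^ 20⌋₊ with hI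
  have hI1 : (I : ℝ) ≤ u ^ 20 := Nat.floor_le (by positivity)
  have hI2 : u ^ 20 < I + 1 := Nat.lt_floor_add_one _
  have hI3 : u ^ 20 / 2 ≤ I := by
    have : (2 : ℝ) ≤ u ^ 20 := le_trans (by norm_num) hp2
    linarith
  have hIi : i₀ ≤ I := by
    have h1 : (i₀ : ℝ) ≤ I := by linarith
    exact_mod_cast h1
  have hIpos : (1 : ℝ) < I := by
    have : (10 : ℝ) ≤ u ^ 20 := le_trans (by norm_num) hp2
    linarith
  have hI2' : 2 ≤ I := by exact_mod_cast hIpos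
  set J := Nat.log 2 (3 * N) + 1 with hJ
  have hJle : (J : ℝ) ≤ 3 * u ^ 40 := by
    have h1 : ((Nat.log 2 (3 * N) : ℕ) : ℝ) ≤ Real.logb 2 ((3 * N : ℕ) : ℝ) := Real.natLog_le_logb _ _
    have h2 : Real.logb 2 ((3 * N : ℕ) : ℝ) = (Real.log 3 + Λ) / Real.log 2 := by
      rw [Real.logb, Nat.cast_mul, Real.log_mul (by norm_num) hNr.ne']
      norm_num
      rfl
    have h3 : Real.log 3 ≤ 3 - 1 := Real.log_le_sub_one_of_pos (by norm_num)
    have h4 : 0.6931471803 < Real.log 2 := Real.log_two_gt_d9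
    have h5 : (Real.log 3 + Λ) / Real.log 2 ≤ 2 * (2 + Λ) := by
      rw [div_le_iff₀ (by linarith)]
      nlinarith
    have h6 : (10 : ℝ) ≤ Λ := by
      rw [hΛu]
      exact le_trans (le_trans (by norm_num) hu) (le_self_pow₀ hu1 (by norm_num))
    rw [hJ, ← hΛu]
    push_cast
    linarith
  -- inclusion
  set D : ℕ → Set ℕ := fun i => {n | (1 ≤ n ∧ n ≤ N) ∧ ¬ IsSquare n ∧ (2 ^ i < F n ∧ F n ≤ 2 ^ (i + 1)) ∧
      (1 + 4 / (i : ℝ) ^ ((1 : ℝ) / 4)) * F n < tn n} with hD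
  have hfin : ∀ p : ℕ → Prop, {n | (1 ≤ n ∧ n ≤ N) ∧ p n}.Finite := fun p =>
    (Set.finite_Icc 1 N).subset (fun n hn => hn.1)
  have hroot : ∀ i : ℕ, I ≤ i → u ^ 5 / 2 ≤ (i : ℝ) ^ ((1 : ℝ) / 4) := by
    intro i hi
    have h1 : u ^ 5 / 2 = ((u ^ 5 / 2) ^ 4) ^ ((1 : ℝ) / 4) := by
      have h0 := Real.pow_rpow_inv_natCast (show 0 ≤ u ^ 5 / 2 by positivity) (show 4 ≠ 0 by norm_num)
      rw [show ((1 : ℝ) / 4) = (((4 : ℕ) : ℝ))⁻¹ by norm_num, h0]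
    rw [h1]
    apply Real.rpow_le_rpow (by positivity) _ (by norm_num)
    have h2 : (I : ℝ) ≤ i := by exact_mod_cast hi
    have h3 : (u ^ 5 / 2) ^ 4 = u ^ 20 / 16 := by ring
    rw [h3]
    have h4 : (0 : ℝ) ≤ u ^ 20 := by positivity
    linarith
  have hsub : {n | (1 ≤ n ∧ n ≤ N) ∧ ¬ (¬ IsSquare n ∧ F n ≤ tn n ∧
      (tn n : ℝ) ≤ (1 + 1 / u ^ 4) * F n)} ⊆
      ({n | (1 ≤ n ∧ n ≤ N) ∧ IsSquare n} ∪ {n | (1 ≤ n ∧ n ≤ N) ∧ Pd n ≤ 2 ^ I}) ∪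
        ⋃ i ∈ Finset.Ico I J, D i := by
    rintro n ⟨hn, hbad⟩
    by_cases hsq : IsSquare n
    · exact Or.inl (Or.inl ⟨hn, hsq⟩)
    by_cases hFI : F n ≤ 2 ^ I
    · exact Or.inl (Or.inr ⟨hn, (Pd_le_F hn.1 hsq).trans hFI⟩)
    right
    have htn : (1 + 1 / u ^ 4) * F n < tn n := by
      by_contra hle
      exact hbad ⟨hsq, F_le_tn hn.1 hsq, not_lt.mp hle⟩
    have hF3 := F_le_three hn.1 hsq
    have hF1 : 1 < F n := lt_of_le_of_lt Nat.one_le_two_pow (not_le.mp hFI)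
    -- the scale
    obtain ⟨i, hi1, hi2⟩ : ∃ i, 2 ^ i < F n ∧ F n ≤ 2 ^ (i + 1) := by
      refine ⟨Nat.clog 2 (F n) - 1, ?_, ?_⟩
      · exact Nat.pow_pred_clog_lt_self one_lt_two hF1
      · have h1 : 0 < Nat.clog 2 (F n) := Nat.clog_pos one_lt_two hF1
        rw [Nat.sub_add_cancel h1]
        exact Nat.le_pow_clog one_lt_two _
    have hIi' : I ≤ i := by
      by_contra hlt
      have h1 : 2 ^ (i + 1) ≤ 2 ^ I := Nat.pow_le_pow_right (by norm_num) (by omega)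
      exact hFI (hi2.trans h1)
    have hiJ : i < J := by
      rw [hJ, Nat.lt_succ_iff]
      apply (Nat.le_log_iff_pow_le one_lt_two (by omega)).mpr
      omega
    refine Set.mem_iUnion₂.mpr ⟨i, Finset.mem_Ico.mpr ⟨hIi', hiJ⟩, ⟨hn, hsq, ⟨hi1, hi2⟩, ?_⟩⟩
    refine lt_of_le_of_lt ?_ htn
    apply mul_le_mul_of_nonneg_right _ (Nat.cast_nonneg _)
    have h1 := hroot i hIi'
    have h2 : 4 / (i : ℝ) ^ ((1 : ℝ) / 4) ≤ 4 / (u ^ 5 / 2) :=
      div_le_div_of_nonneg_left (by norm_num) (by positivity) h1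
    have h3 : 4 / (u ^ 5 / 2) ≤ 1 / u ^ 4 := by
      rw [div_le_div_iff₀ (by positivity) (by positivity)]
      have h4 : u ^ 5 = u * u ^ 4 := by ring
      rw [h4]
      have h5 : (8 : ℝ) ≤ u := le_trans (by norm_num) hu
      have h6 : (0 : ℝ) < u ^ 4 := by positivity
      nlinarith
    linarith
  have hD1 : ∀ i ∈ Finset.Ico I J, ((D i).ncard : ℝ) ≤ N * (2 / u ^ 5) * (1 / i) := by
    intro i hi
    have hiI := (Finset.mem_Ico.mp hi).1
    have h1 := hd i (hIi.trans hiI) N (by omega)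
    refine h1.trans ?_
    have hi0 : (0 : ℝ) < i := by
      have : 0 < i := by omega
      exact_mod_cast this
    have h2 : (i : ℝ) ^ ((5 : ℝ) / 4) = i * (i : ℝ) ^ ((1 : ℝ) / 4) := by
      rw [show (5 : ℝ) / 4 = 1 + 1 / 4 by norm_num, Real.rpow_add hi0, Real.rpow_one]
    rw [h2]
    have h3 := hroot i hiI
    have h4 : (N : ℝ) / (i * (i : ℝ) ^ ((1 : ℝ) / 4)) ≤ N / (i * (u ^ 5 / 2)) := by
      apply div_le_div_of_nonneg_left hNr.le (by positivity)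
      exact mul_le_mul_of_nonneg_left h3 hi0.le
    refine h4.trans (le_of_eq ?_)
    field_simp
  have hsum : ∑ i ∈ Finset.Ico I J, (1 : ℝ) / i ≤ Real.log 3 + 40 * Real.log u := by
    rcases lt_or_ge J I with hJI | hJI
    · rw [Finset.Ico_eq_empty (by omega), Finset.sum_empty]
      have h1 : 0 ≤ Real.log u := Real.log_nonneg hu1
      have h2 : 0 ≤ Real.log 3 := Real.log_nonneg (by norm_num)
      linarith
    have h1 : Finset.Ico I J ⊆ Finset.Ioc (I - 1) J := by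
      intro i hi
      rw [Finset.mem_Ico] at hi
      rw [Finset.mem_Ioc]
      omega
    have h2 : ∑ i ∈ Finset.Ico I J, (1 : ℝ) / i ≤ ∑ i ∈ Finset.Ioc (I - 1) J, (1 : ℝ) / i :=
      Finset.sum_le_sum_of_subset_of_nonneg h1 (fun i _ _ => by positivity)
    have h3 := sum_inv_le_log (I - 1) J (by omega) (by omega)
    have h4 : 0 ≤ Real.log ((I - 1 : ℕ) : ℝ) := Real.log_natCast_nonneg _
    have hJpos : (0 : ℝ) < J := by
      have : 0 < J := by omega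
      exact_mod_cast this
    have h5 : Real.log J ≤ Real.log (3 * u ^ 40) := Real.log_le_log hJpos hJle
    rw [Real.log_mul (by norm_num) (by positivity), Real.log_pow] at h5
    push_cast at h5
    linarith
  have hcard : ({n | (1 ≤ n ∧ n ≤ N) ∧ ¬ (¬ IsSquare n ∧ F n ≤ tn n ∧
      (tn n : ℝ) ≤ (1 + 1 / u ^ 4) * F n)}.ncard : ℝ) ≤
      (({n | (1 ≤ n ∧ n ≤ N) ∧ IsSquare n}.ncard : ℝ) +
        ({n | (1 ≤ n ∧ n ≤ N) ∧ Pd n ≤ 2 ^ I}.ncard : ℝ)) + ∑ i ∈ Finset.Ico I J, ((D i).ncard : ℝ) := by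
    have hfinU : (⋃ i ∈ Finset.Ico I J, D i).Finite :=
      Set.Finite.biUnion (Finset.finite_toSet _) (fun i _ => hfin _)
    have h1 := Set.ncard_le_ncard hsub (((hfin _).union (hfin _)).union hfinU)
    have h2 := Set.ncard_union_le ({n | (1 ≤ n ∧ n ≤ N) ∧ IsSquare n} ∪
      {n | (1 ≤ n ∧ n ≤ N) ∧ Pd n ≤ 2 ^ I}) (⋃ i ∈ Finset.Ico I J, D i)
    have h3 := Set.ncard_union_le {n | (1 ≤ n ∧ n ≤ N) ∧ IsSquare n}
      {n | (1 ≤ n ∧ n ≤ N) ∧ Pd n ≤ 2 ^ I}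
    have h4 := Finset.set_ncard_biUnion_le (Finset.Ico I J) D
    have h5 := h1.trans (h2.trans (add_le_add h3 h4))
    exact_mod_cast h5
  -- numerical bounds
  have hlog : 0 < Λ := by rw [hΛu]; positivity
  have hu4 : (0 : ℝ) < u ^ 4 := by positivity
  have hsqrt : √(N : ℝ) ≤ N / (5 * u ^ 4) := by
    have h1 : √(N : ℝ) * √(N : ℝ) = N := Real.mul_self_sqrt hNr.le
    have h2 : √(N : ℝ) = Real.exp (Λ / 2) := by
      rw [Real.sqrt_eq_rpow, Real.rpow_def_of_pos hNr]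
      congr 1
      rw [← hΛ]
      ring
    have h3 : 1 + Λ / 2 + (Λ / 2) ^ 2 / 2 ≤ Real.exp (Λ / 2) :=
      Real.quadratic_le_exp_of_nonneg (by linarith)
    have h4 : 5 * u ^ 4 ≤ √(N : ℝ) := by
      rw [h2]
      have h5 : u ^ 4 ≤ Λ := by
        rw [hΛu]
        exact pow_le_pow_right₀ hu1 (by norm_num)
      have h6 : (40 : ℝ) ≤ Λ := by
        rw [hΛu]
        exact le_trans (le_trans (by norm_num) hu) (le_self_pow₀ hu1 (by norm_num))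
      nlinarith
    rw [le_div_iff₀ (by positivity)]
    nlinarith [Real.sqrt_nonneg (N : ℝ)]
  have hP1 := card_Pd_small N (2 ^ I) hN2 Nat.one_le_two_pow
  rw [← hΛ] at hP1
  have hb2 : 4 * (N : ℝ) * (Real.log ((2 ^ I : ℕ) : ℝ) + Real.log 4) / Λ ≤ N / (5 * u ^ 4) := by
    have h1 : Real.log ((2 ^ I : ℕ) : ℝ) = I * Real.log 2 := by
      push_cast
      rw [Real.log_pow]
    have h2 : Real.log 2 ≤ 2 - 1 := Real.log_le_sub_one_of_pos (by norm_num)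
    have h2' : 0 < Real.log 2 := Real.log_pos (by norm_num)
    have h3 : Real.log 4 ≤ 4 - 1 := Real.log_le_sub_one_of_pos (by norm_num)
    have h4 : Real.log ((2 ^ I : ℕ) : ℝ) + Real.log 4 ≤ 2 * u ^ 20 := by
      rw [h1]
      have h5 : (I : ℝ) * Real.log 2 ≤ u ^ 20 * 1 := by
        apply mul_le_mul hI1 (by linarith) h2'.le (by positivity)
      linarith [le_trans (show (3 : ℝ) ≤ 10 ^ 6 by norm_num) hp2]
    rw [div_le_div_iff₀ hlog (by positivity), hΛu]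
    have h6 : u ^ 40 = u ^ 16 * (u ^ 20 * u ^ 4) := by ring
    have h7 : (40 : ℝ) ≤ u ^ 16 := le_trans (le_trans (by norm_num) hu) (le_self_pow₀ hu1 (by norm_num))
    rw [h6]
    have h8 : (0 : ℝ) < u ^ 20 * u ^ 4 := by positivity
    have h9 : 4 * (N : ℝ) * (Real.log ((2 ^ I : ℕ) : ℝ) + Real.log 4) ≤ 4 * N * (2 * u ^ 20) :=
      mul_le_mul_of_nonneg_left h4 (by positivity)
    calc 4 * (N : ℝ) * (Real.log ((2 ^ I : ℕ) : ℝ) + Real.log 4) * (5 * u ^ 4)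
        ≤ 4 * N * (2 * u ^ 20) * (5 * u ^ 4) := mul_le_mul_of_nonneg_right h9 (by positivity)
      _ = N * (40 * (u ^ 20 * u ^ 4)) := by ring
      _ ≤ N * (u ^ 16 * (u ^ 20 * u ^ 4)) :=
          mul_le_mul_of_nonneg_left (mul_le_mul_of_nonneg_right h7 h8.le) hNr.le
  have hb3 : 2 * (N : ℝ) / ((2 ^ I : ℕ) : ℝ) ≤ N / (5 * u ^ 4) := by
    have h1 : (I : ℝ) + 1 ≤ ((2 ^ I : ℕ) : ℝ) := by
      exact_mod_cast Nat.succ_le_of_lt (Nat.lt_two_pow_self (n := I))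
    have h2 : u ^ 20 ≤ ((2 ^ I : ℕ) : ℝ) := by linarith
    have h3 : (0 : ℝ) < ((2 ^ I : ℕ) : ℝ) := by positivity
    rw [div_le_div_iff₀ h3 (by positivity)]
    have h4 : u ^ 20 = u ^ 16 * u ^ 4 := by ring
    have h7 : (10 : ℝ) ≤ u ^ 16 := le_trans (le_trans (by norm_num) hu) (le_self_pow₀ hu1 (by norm_num))
    calc 2 * (N : ℝ) * (5 * u ^ 4) = N * (10 * u ^ 4) := by ring
      _ ≤ N * (u ^ 16 * u ^ 4) :=
          mul_le_mul_of_nonneg_left (mul_le_mul_of_nonneg_right h7 hu4.le) hNr.le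
      _ ≤ N * ((2 ^ I : ℕ) : ℝ) := by
          apply mul_le_mul_of_nonneg_left _ hNr.le
          rw [← h4]
          exact h2
  have hb4 : ∑ i ∈ Finset.Ico I J, ((D i).ncard : ℝ) ≤ N / (5 * u ^ 4) := by
    have h1 : ∑ i ∈ Finset.Ico I J, ((D i).ncard : ℝ) ≤
        ∑ i ∈ Finset.Ico I J, N * (2 / u ^ 5) * (1 / (i : ℝ)) := Finset.sum_le_sum hD1
    rw [← Finset.mul_sum] at h1
    refine h1.trans ?_
    have h2 := dens_small u hu
    have h3 : (N : ℝ) * (2 / u ^ 5) * ∑ i ∈ Finset.Ico I J, (1 : ℝ) / i ≤ N * (2 / u ^ 5) * (u / 10) := by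
      apply mul_le_mul_of_nonneg_left _ (by positivity)
      linarith
    refine h3.trans (le_of_eq ?_)
    field_simp
    ring
  have hsq := card_squares_le N
  have hfinal : (N : ℝ) / u ^ 4 = 5 * (N / (5 * u ^ 4)) := by
    field_simp
  rw [hfinal]
  linarith

end Pool.Agent.TNA
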