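import Pool.Agent.TNA.Dyad

set_option autoImplicit false

/-!
# The bound at every scale, explicit and uniform
-/

namespace Pool.Agent.TNA

open Pool.Agent.TN

theorem unif_log (i : ℕ) (hi : 32 ≤ i) : 4 * (Nat.log 2 i + 1) ≤ i := by
  have h1 : 2 ^ Nat.log 2 i ≤ i := Nat.pow_log_le_self 2 (by omega)
  have h5 : 5 ≤ Nat.log 2 i := Nat.le_log_of_pow_le (by norm_num) (by norm_num; exact hi)
  obtain ⟨m, hm⟩ : ∃ m, Nat.log 2 i = 5 + m := ⟨Nat.log 2 i - 5, by omega⟩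
  rw [hm] at h1 ⊢
  have h2 : m + 1 ≤ 2 ^ m := Nat.lt_two_pow_self
  have h3 : 2 ^ (5 + m) = 32 * 2 ^ m := by rw [pow_add]; norm_num
  omega

theorem unif_nat (i s N : ℕ) (hi : 2 ≤ i) (hs : 1 ≤ s) :
    ({n | (1 ≤ n ∧ n ≤ N) ∧ ¬ IsSquare n ∧ (2 ^ i < F n ∧ F n ≤ 2 ^ (i + 1)) ∧
      (1 + 2 / (s : ℝ)) * F n < tn n}.ncard : ℝ) ≤
      2 * 10 ^ 7 * s ^ 2 * (Real.log i / i) ^ 2 * N := by
  have hsR : (1 : ℝ) ≤ s := by exact_mod_cast hs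
  have hiR : (2 : ℝ) ≤ i := by exact_mod_cast hi
  have hlog2 : (0.69 : ℝ) < Real.log 2 := by linarith [Real.log_two_gt_d9]
  have hli : Real.log 2 ≤ Real.log i := Real.log_le_log (by norm_num) hiR
  have hlipos : 0 < Real.log i := by linarith
  have hs2 : (1 : ℝ) ≤ (s : ℝ) ^ 2 := by nlinarith
  -- trivial bound
  have htriv : ({n | (1 ≤ n ∧ n ≤ N) ∧ ¬ IsSquare n ∧ (2 ^ i < F n ∧ F n ≤ 2 ^ (i + 1)) ∧
      (1 + 2 / (s : ℝ)) * F n < tn n}.ncard : ℝ) ≤ N := by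
    have h1 : {n | (1 ≤ n ∧ n ≤ N) ∧ ¬ IsSquare n ∧ (2 ^ i < F n ∧ F n ≤ 2 ^ (i + 1)) ∧
      (1 + 2 / (s : ℝ)) * F n < tn n} ⊆ Set.Icc 1 N := fun n hn => hn.1
    have h2 := Set.ncard_le_ncard h1 (Set.finite_Icc 1 N)
    have h3 : (Set.Icc 1 N).ncard = N := by
      rw [← Finset.coe_Icc, Set.ncard_coe_finset, Nat.card_Icc]
      omega
    rw [h3] at h2
    exact_mod_cast h2
  have hcomp : (1 : ℝ) ≤ 2 * 10 ^ 7 * s ^ 2 * (Real.log i / i) ^ 2 →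
      ({n | (1 ≤ n ∧ n ≤ N) ∧ ¬ IsSquare n ∧ (2 ^ i < F n ∧ F n ≤ 2 ^ (i + 1)) ∧
      (1 + 2 / (s : ℝ)) * F n < tn n}.ncard : ℝ) ≤
      2 * 10 ^ 7 * s ^ 2 * (Real.log i / i) ^ 2 * N := by
    intro h
    refine htriv.trans ?_
    have hN0 : (0 : ℝ) ≤ N := Nat.cast_nonneg _
    nlinarith
  by_cases hi32 : i < 32
  · apply hcomp
    have hi32R : (i : ℝ) ≤ 32 := by exact_mod_cast hi32.le
    have h1 : (0.02 : ℝ) ≤ Real.log i / i := by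
      rw [le_div_iff₀ (by linarith)]
      linarith
    have h2 : (0.0004 : ℝ) ≤ (Real.log i / i) ^ 2 := by nlinarith
    nlinarith
  push Not at hi32
  by_cases hsi : s ≤ 2 ^ i
  swap
  · apply hcomp
    push Not at hsi
    have h1 : (i : ℝ) ≤ s := by
      have : i ≤ s := (Nat.lt_two_pow_self.trans hsi).le
      exact_mod_cast this
    have h2 : (1 : ℝ) ≤ s / i := by
      rw [le_div_iff₀ (by linarith)]
      linarith
    have h3 : (s : ℝ) ^ 2 * (Real.log i / i) ^ 2 = (s / i) ^ 2 * (Real.log i) ^ 2 := by ring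
    have h4 : (0.4 : ℝ) ≤ (Real.log i) ^ 2 := by nlinarith
    have h5 : (1 : ℝ) ≤ (s / i : ℝ) ^ 2 := by nlinarith
    have h6 : (0.4 : ℝ) ≤ (s / i : ℝ) ^ 2 * (Real.log i) ^ 2 := by nlinarith
    have h7 : 2 * 10 ^ 7 * (s : ℝ) ^ 2 * (Real.log i / i) ^ 2 =
        2 * 10 ^ 7 * ((s / i : ℝ) ^ 2 * (Real.log i) ^ 2) := by rw [← h3]; ring
    rw [h7]
    linarith
  by_cases hN : 2 ^ i ≤ 3 * N
  swap
  · have hempty : {n | (1 ≤ n ∧ n ≤ N) ∧ ¬ IsSquare n ∧ (2 ^ i < F n ∧ F n ≤ 2 ^ (i + 1)) ∧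
      (1 + 2 / (s : ℝ)) * F n < tn n} = ∅ := by
      rw [Set.eq_empty_iff_forall_notMem]
      rintro n ⟨⟨hn1, hn2⟩, hsq, ⟨hF1, _⟩, _⟩
      have := F_le_three hn1 hsq
      omega
    rw [hempty, Set.ncard_empty, Nat.cast_zero]
    positivity
  -- main case
  set L : ℕ := Nat.log 2 i + 1 with hL
  have hL4 : 4 * L ≤ i := unif_log i hi32
  have hk : 2 * L < i := by omega
  have hmain := dyad_explicit N i (2 * L) s hk hs hsi hN
  have hpow : (i : ℝ) < 2 ^ L := by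
    have : i < 2 ^ L := Nat.lt_pow_succ_log_self (by norm_num) i
    exact_mod_cast this
  have hpow2 : (i : ℝ) ^ 2 ≤ 2 ^ (2 * L) := by
    have : (2 : ℝ) ^ (2 * L) = (2 ^ L) ^ 2 := by rw [mul_comm, pow_mul]
    rw [this]
    nlinarith
  have hLlog : (L : ℝ) ≤ 3 * Real.log i := by
    have h1 : ((Nat.log 2 i : ℕ) : ℝ) * Real.log 2 ≤ Real.log i := by
      rw [← Real.log_pow]
      apply Real.log_le_log (by positivity)
      have : 2 ^ Nat.log 2 i ≤ i := Nat.pow_log_le_self 2 (by omega)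
      exact_mod_cast this
    have h2 : (L : ℝ) = (Nat.log 2 i : ℝ) + 1 := by rw [hL]; push_cast; ring
    have h3 : (0 : ℝ) ≤ (Nat.log 2 i : ℝ) := Nat.cast_nonneg _
    rw [h2]
    nlinarith
  have hsub : (i : ℝ) / 2 ≤ ((i - 2 * L : ℕ) : ℝ) := by
    have h1 : i ≤ 2 * (i - 2 * L) := by omega
    have h2 : (i : ℝ) ≤ 2 * ((i - 2 * L : ℕ) : ℝ) := by exact_mod_cast h1
    linarith
  have hi0 : (0 : ℝ) < i := by linarith
  have hN0 : (0 : ℝ) ≤ N := Nat.cast_nonneg _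
  have hA : 60 * (s : ℝ) ^ 2 * N / (2 ^ (2 * L) * ((i - 2 * L : ℕ) : ℝ)) ≤ 120 * s ^ 2 * N / i ^ 2 := by
    have h1 : (i : ℝ) ^ 2 * (1 / 2) ≤ 2 ^ (2 * L) * ((i - 2 * L : ℕ) : ℝ) := by
      have h2 : (1 : ℝ) / 2 ≤ ((i - 2 * L : ℕ) : ℝ) := by linarith
      have h3 : (0 : ℝ) ≤ (i : ℝ) ^ 2 := by positivity
      calc (i : ℝ) ^ 2 * (1 / 2) ≤ (i : ℝ) ^ 2 * ((i - 2 * L : ℕ) : ℝ) := by gcongr
        _ ≤ 2 ^ (2 * L) * ((i - 2 * L : ℕ) : ℝ) := by gcongr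
    calc 60 * (s : ℝ) ^ 2 * N / (2 ^ (2 * L) * ((i - 2 * L : ℕ) : ℝ))
        ≤ 60 * (s : ℝ) ^ 2 * N / ((i : ℝ) ^ 2 * (1 / 2)) := by
          apply div_le_div_of_nonneg_left (by positivity) (by positivity) h1
      _ = 120 * (s : ℝ) ^ 2 * N / (i : ℝ) ^ 2 := by field_simp; ring
  have hB : 40000 * (s : ℝ) ^ 2 * N * (((2 * L : ℕ) : ℝ) + 2) ^ 2 / ((i - 2 * L : ℕ) : ℝ) ^ 2 ≤
      160000 * s ^ 2 * N * (10 * Real.log i) ^ 2 / i ^ 2 := by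
    have h1 : (((2 * L : ℕ) : ℝ) + 2) ≤ 10 * Real.log i := by
      push_cast
      nlinarith
    have h2 : (((2 * L : ℕ) : ℝ) + 2) ^ 2 ≤ (10 * Real.log i) ^ 2 := by gcongr
    have h3 : ((i : ℝ) / 2) ^ 2 ≤ ((i - 2 * L : ℕ) : ℝ) ^ 2 := by gcongr
    calc 40000 * (s : ℝ) ^ 2 * N * (((2 * L : ℕ) : ℝ) + 2) ^ 2 / ((i - 2 * L : ℕ) : ℝ) ^ 2
        ≤ 40000 * (s : ℝ) ^ 2 * N * (10 * Real.log i) ^ 2 / ((i : ℝ) / 2) ^ 2 := by gcongr
      _ = 160000 * (s : ℝ) ^ 2 * N * (10 * Real.log i) ^ 2 / (i : ℝ) ^ 2 := by field_simp; ring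
  refine hmain.trans ((add_le_add hA hB).trans ?_)
  have h4 : 2 * 10 ^ 7 * (s : ℝ) ^ 2 * (Real.log i / i) ^ 2 * N =
      2 * 10 ^ 7 * s ^ 2 * N * (Real.log i) ^ 2 / i ^ 2 := by ring
  rw [h4, ← add_div]
  apply div_le_div_of_nonneg_right _ (by positivity)
  have h5 : (0.4 : ℝ) ≤ (Real.log i) ^ 2 := by nlinarith
  have h6 : (0 : ℝ) ≤ (s : ℝ) ^ 2 * N := by positivity
  nlinarith [mul_nonneg h6 (sub_nonneg.mpr h5)]

theorem unif_arith {s η x a b N : ℝ} (hs0 : 0 ≤ s) (hs3 : s ≤ 3 / η) (hη : 0 < η) (hx0 : 0 ≤ x)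
    (ha0 : 0 ≤ a) (ha : a ≤ 1.5 * x) (hb0 : 0 ≤ b) (hb : b ≤ 3 * x) (hN0 : 0 ≤ N) :
    2 * 10 ^ 7 * s ^ 2 * a ^ 2 * N + 2 * 10 ^ 7 * s ^ 2 * b ^ 2 * N ≤
      4 * 10 ^ 9 * (x / η) ^ 2 * N := by
  have hs9 : s ^ 2 ≤ (3 / η) ^ 2 := pow_le_pow_left₀ hs0 hs3 2
  have g1 : a ^ 2 ≤ (1.5 * x) ^ 2 := pow_le_pow_left₀ ha0 ha 2
  have g2 : b ^ 2 ≤ (3 * x) ^ 2 := pow_le_pow_left₀ hb0 hb 2
  have k1 : s ^ 2 * a ^ 2 ≤ (3 / η) ^ 2 * (1.5 * x) ^ 2 :=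
    mul_le_mul hs9 g1 (sq_nonneg _) (sq_nonneg _)
  have k2 : s ^ 2 * b ^ 2 ≤ (3 / η) ^ 2 * (3 * x) ^ 2 :=
    mul_le_mul hs9 g2 (sq_nonneg _) (sq_nonneg _)
  have k3 : s ^ 2 * a ^ 2 + s ^ 2 * b ^ 2 ≤ 200 * (x / η) ^ 2 := by
    have e : 200 * (x / η) ^ 2 = (3 / η) ^ 2 * (1.5 * x) ^ 2 + (3 / η) ^ 2 * (3 * x) ^ 2 +
      98.75 * (x / η) ^ 2 := by ring
    have e0 : 0 ≤ (x / η) ^ 2 := sq_nonneg _
    rw [e]
    linarith
  have k4 := mul_le_mul_of_nonneg_right k3 hN0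
  linarith

/-- For all real `T ≥ 16`, `0 < η ≤ 1` and all `N`: at most
`4·10^9 (log log T / (η log T))² N` of the nonsquares `n ≤ N` with `T < F(n) ≤ 2T` have
`t_n > (1 + η) F(n)`. -/
theorem unif (T η : ℝ) (hT : 16 ≤ T) (hη : 0 < η) (hη1 : η ≤ 1) (N : ℕ) :
    ({n : ℕ | (1 ≤ n ∧ n ≤ N) ∧ ¬ IsSquare n ∧ (T < F n ∧ (F n : ℝ) ≤ 2 * T) ∧
      (1 + η) * F n < tn n}.ncard : ℝ) ≤
      4 * 10 ^ 9 * (Real.log (Real.log T) / (η * Real.log T)) ^ 2 * N := by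
  have hlog2 : (0.69 : ℝ) < Real.log 2 := by linarith [Real.log_two_gt_d9]
  have hlog2' : Real.log 2 < (0.7 : ℝ) := by linarith [Real.log_two_lt_d9]
  have hT0 : 0 < T := by linarith
  set i : ℕ := Nat.log 2 ⌊T⌋₊ with hidef
  have hfl : 16 ≤ ⌊T⌋₊ := Nat.le_floor (by exact_mod_cast hT)
  have hi4 : 4 ≤ i := Nat.le_log_of_pow_le (by norm_num) (by norm_num; exact hfl)
  have hlow : (2 : ℝ) ^ i ≤ T := by
    have h1 : 2 ^ i ≤ ⌊T⌋₊ := Nat.pow_log_le_self 2 (by omega)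
    have h2 : ((2 ^ i : ℕ) : ℝ) ≤ (⌊T⌋₊ : ℝ) := by exact_mod_cast h1
    have h3 := Nat.floor_le hT0.le
    push_cast at h2
    linarith
  have hhigh : T < (2 : ℝ) ^ (i + 1) := by
    have h1 : ⌊T⌋₊ < 2 ^ (i + 1) := Nat.lt_pow_succ_log_self (by norm_num) _
    have h2 : ⌊T⌋₊ + 1 ≤ 2 ^ (i + 1) := h1
    have h3 : ((⌊T⌋₊ + 1 : ℕ) : ℝ) ≤ ((2 ^ (i + 1) : ℕ) : ℝ) := by exact_mod_cast h2
    have h4 := Nat.lt_floor_add_one T
    push_cast at h3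
    linarith
  set s : ℕ := ⌈2 / η⌉₊ with hsdef
  have hs1 : 1 ≤ s := Nat.one_le_ceil_iff.mpr (by positivity)
  have hsR : (1 : ℝ) ≤ s := by exact_mod_cast hs1
  have hsle : 2 / η ≤ s := Nat.le_ceil _
  have hsη : 2 / (s : ℝ) ≤ η := by
    rw [div_le_iff₀ (by linarith)]
    rw [div_le_iff₀ hη] at hsle
    linarith
  have hs3 : (s : ℝ) ≤ 3 / η := by
    have h1 : (s : ℝ) < 2 / η + 1 := Nat.ceil_lt_add_one (by positivity)
    have h2 : 1 ≤ 1 / η := by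
      rw [le_div_iff₀ hη]
      linarith
    have h3 : (3 : ℝ) / η = 2 / η + 1 / η := by ring
    rw [h3]
    linarith
  -- the set is contained in the union of two dyadic scales
  have hsub : {n : ℕ | (1 ≤ n ∧ n ≤ N) ∧ ¬ IsSquare n ∧ (T < F n ∧ (F n : ℝ) ≤ 2 * T) ∧
      (1 + η) * F n < tn n} ⊆
      {n | (1 ≤ n ∧ n ≤ N) ∧ ¬ IsSquare n ∧ (2 ^ i < F n ∧ F n ≤ 2 ^ (i + 1)) ∧
        (1 + 2 / (s : ℝ)) * F n < tn n} ∪
      {n | (1 ≤ n ∧ n ≤ N) ∧ ¬ IsSquare n ∧ (2 ^ (i + 1) < F n ∧ F n ≤ 2 ^ (i + 1 + 1)) ∧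
        (1 + 2 / (s : ℝ)) * F n < tn n} := by
    rintro n ⟨hn, hsq, ⟨h1, h2⟩, h3⟩
    have hF0 : (0 : ℝ) ≤ F n := Nat.cast_nonneg _
    have h4 : (1 + 2 / (s : ℝ)) * F n < tn n := by
      refine lt_of_le_of_lt ?_ h3
      gcongr
    have h5 : 2 ^ i < F n := by
      have : ((2 ^ i : ℕ) : ℝ) < (F n : ℝ) := by push_cast; linarith
      exact_mod_cast this
    have h6 : F n ≤ 2 ^ (i + 1 + 1) := by
      have : (F n : ℝ) ≤ ((2 ^ (i + 1 + 1) : ℕ) : ℝ) := by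
        push_cast
        have e : (2 : ℝ) ^ (i + 1 + 1) = 2 * 2 ^ (i + 1) := by ring
        rw [e]
        linarith
      exact_mod_cast this
    by_cases h7 : F n ≤ 2 ^ (i + 1)
    · exact Or.inl ⟨hn, hsq, ⟨h5, h7⟩, h4⟩
    · exact Or.inr ⟨hn, hsq, ⟨by omega, h6⟩, h4⟩
  have hfin : ∀ p : ℕ → Prop, {n | (1 ≤ n ∧ n ≤ N) ∧ p n}.Finite := fun p =>
    (Set.finite_Icc 1 N).subset (fun n hn => hn.1)
  have hcard := (Set.ncard_le_ncard hsub ((hfin _).union (hfin _))).trans (Set.ncard_union_le _ _)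
  have hcardR : ({n : ℕ | (1 ≤ n ∧ n ≤ N) ∧ ¬ IsSquare n ∧ (T < F n ∧ (F n : ℝ) ≤ 2 * T) ∧
      (1 + η) * F n < tn n}.ncard : ℝ) ≤
      2 * 10 ^ 7 * s ^ 2 * (Real.log i / i) ^ 2 * N +
      2 * 10 ^ 7 * s ^ 2 * (Real.log ((i + 1 : ℕ) : ℝ) / ((i + 1 : ℕ) : ℝ)) ^ 2 * N := by
    have h1 := unif_nat i s N (by omega) hs1
    have h2 := unif_nat (i + 1) s N (by omega) hs1
    refine le_trans ?_ (add_le_add h1 h2)
    exact_mod_cast hcard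
  -- estimates
  have hi4R : (4 : ℝ) ≤ i := by exact_mod_cast hi4
  have hi0 : (0 : ℝ) < i := by linarith
  have hlogT : (i : ℝ) * Real.log 2 ≤ Real.log T := by
    rw [← Real.log_pow]
    exact Real.log_le_log (by positivity) hlow
  have hlogT' : Real.log T ≤ i := by
    have h1 : Real.log T ≤ ((i + 1 : ℕ) : ℝ) * Real.log 2 := by
      rw [← Real.log_pow]
      exact Real.log_le_log hT0 (by exact_mod_cast hhigh.le)
    push_cast at h1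
    nlinarith
  have hlogTpos : (2.7 : ℝ) ≤ Real.log T := by nlinarith
  have hlogi : Real.log i ≤ Real.log (Real.log T) + 0.4 := by
    have h1 : (i : ℝ) ≤ Real.log T * (1 / Real.log 2) := by
      rw [mul_one_div, le_div_iff₀ (by linarith)]
      exact hlogT
    have h2 : Real.log i ≤ Real.log (Real.log T * (1 / Real.log 2)) := Real.log_le_log hi0 h1
    have hl2 : (1 : ℝ) / Real.log 2 ≠ 0 := by
      have : (0 : ℝ) < 1 / Real.log 2 := by positivity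
      exact this.ne'
    rw [Real.log_mul (by linarith) hl2] at h2
    have h3 : Real.log (1 / Real.log 2) ≤ 1 / Real.log 2 - 1 :=
      Real.log_le_sub_one_of_pos (by positivity)
    have h4 : (1 : ℝ) / Real.log 2 ≤ 1 / 0.69 := by
      apply one_div_le_one_div_of_le (by norm_num) hlog2.le
    have h5 : (1 : ℝ) / 0.69 ≤ 1.45 := by norm_num
    have h6 : Real.log (1 / Real.log 2) ≤ 0.4 := by
      have h7 : Real.log (1 / Real.log 2) ≤ Real.log 1.45 :=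
        Real.log_le_log (by positivity) (by linarith)
      have h8 : Real.log (1.45 : ℝ) ≤ 0.4 := by
        rw [Real.log_le_iff_le_exp (by norm_num)]
        have := Real.quadratic_le_exp_of_nonneg (show (0 : ℝ) ≤ 0.4 by norm_num)
        norm_num at this ⊢
        linarith
      linarith
    linarith
  have hll : (0.98 : ℝ) ≤ Real.log (Real.log T) := by
    rw [Real.le_log_iff_exp_le (by linarith)]
    have h1 : Real.exp 1 < 2.7182818286 := Real.exp_one_lt_d9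
    have h2 : Real.exp 0.98 ≤ Real.exp 1 * Real.exp (-0.02) := by
      rw [← Real.exp_add]
      apply Real.exp_le_exp.mpr
      norm_num
    have h3 : Real.exp (-0.02 : ℝ) ≤ 0.99 := by
      have h4 : Real.exp (-0.02 : ℝ) = (Real.exp 0.02)⁻¹ := Real.exp_neg _
      rw [h4]
      have h5 : (1.02 : ℝ) ≤ Real.exp 0.02 := by
        have := Real.add_one_le_exp (0.02 : ℝ)
        linarith
      calc (Real.exp 0.02)⁻¹ ≤ (1.02 : ℝ)⁻¹ := by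
            apply inv_anti₀ (by norm_num) h5
        _ ≤ 0.99 := by norm_num
    have h6 : 0 < Real.exp (-0.02 : ℝ) := Real.exp_pos _
    have h7 : 0 < Real.exp (1 : ℝ) := Real.exp_pos _
    nlinarith
  have hlogi2 : Real.log i ≤ 1.5 * Real.log (Real.log T) := by linarith
  have hlogi0 : 0 ≤ Real.log i := Real.log_nonneg (by linarith)
  have hloginc : Real.log ((i + 1 : ℕ) : ℝ) ≤ 2 * Real.log i := by
    have h1 : ((i + 1 : ℕ) : ℝ) ≤ (i : ℝ) ^ 2 := by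
      push_cast
      nlinarith
    calc Real.log ((i + 1 : ℕ) : ℝ) ≤ Real.log ((i : ℝ) ^ 2) :=
          Real.log_le_log (by positivity) h1
      _ = 2 * Real.log i := by rw [Real.log_pow]; push_cast; ring
  have hloginc0 : 0 ≤ Real.log ((i + 1 : ℕ) : ℝ) := Real.log_nonneg (by push_cast; linarith)
  set x : ℝ := Real.log (Real.log T) / Real.log T with hx
  have hx0 : 0 ≤ x := by positivity
  have hq1 : Real.log i / i ≤ 1.5 * x := by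
    rw [hx, ← mul_div_assoc]
    apply div_le_div₀ (by linarith) hlogi2 (by linarith) hlogT'
  have hq1' : 0 ≤ Real.log i / i := by positivity
  have hq2 : Real.log ((i + 1 : ℕ) : ℝ) / ((i + 1 : ℕ) : ℝ) ≤ 3 * x := by
    calc Real.log ((i + 1 : ℕ) : ℝ) / ((i + 1 : ℕ) : ℝ) ≤ (2 * Real.log i) / i := by
          apply div_le_div₀ (by linarith) hloginc hi0
          push_cast
          linarith
      _ = 2 * (Real.log i / i) := by ring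
      _ ≤ 2 * (1.5 * x) := by linarith
      _ = 3 * x := by ring
  have hq2' : 0 ≤ Real.log ((i + 1 : ℕ) : ℝ) / ((i + 1 : ℕ) : ℝ) := by positivity
  have hN0 : (0 : ℝ) ≤ N := Nat.cast_nonneg _
  have hxη : (Real.log (Real.log T) / (η * Real.log T)) = x / η := by
    rw [hx]
    field_simp
  rw [hxη]
  refine hcardR.trans ?_
  exact unif_arith (by linarith) hs3 hη hx0 hq1' hq1 hq2' hq2 hN0

end Pool.Agent.TNA
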