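import Pool.Agent.TNA.Low
import Pool.Agent.TN.Block

set_option autoImplicit false

/-!
# The block argument
-/

namespace Pool.Agent.TNA

open Pool.Agent.TN Finset

lemma mem_blkd {a L T n : ℕ} : n ∈ blkd a L T ↔ (a < n ∧ n ≤ a + L) ∧ Pd n ≤ T := by
  unfold blkd
  rw [Finset.mem_filter, Finset.mem_Ioc]

/-- exponent vector modulo 2 on a finite set of primes -/
noncomputable def blk_vec (A : Finset ℕ) (n : ℕ) : A → ZMod 2 :=
  fun q => ((n.factorization (q : ℕ) : ℕ) : ZMod 2)

lemma blk_vec_eq_zero {A : Finset ℕ} {n : ℕ} {q : A} (h : Even (n.factorization (q : ℕ))) :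
    blk_vec A n q = 0 := by
  unfold blk_vec
  rwa [ZMod.natCast_eq_zero_iff_even]

lemma blk_vec_ne_zero {A : Finset ℕ} {n : ℕ} {q : A} (h : Odd (n.factorization (q : ℕ))) :
    blk_vec A n q ≠ 0 := by
  unfold blk_vec
  intro h0
  rw [ZMod.natCast_eq_zero_iff_even] at h0
  exact (Nat.not_even_iff_odd.mpr h) h0

lemma blk_works {a L T n : ℕ} {A : Finset ℕ} (hn : n ∈ blkd a L T) (hsq : ¬ IsSquare n)
    (hA : ∀ k ∈ blkd a L T, ∀ q, Odd (k.factorization q) → q ∈ A)
    (h : blk_vec A n ∈ Submodule.span (ZMod 2) (blk_vec A '' {m | m ∈ blkd a L T ∧ n < m})) :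
    Works n L := by
  classical
  have hset : {m | m ∈ blkd a L T ∧ n < m} =
      (((blkd a L T).filter (fun m => n < m) : Finset ℕ) : Set ℕ) := by
    ext m; simp
  rw [hset, Submodule.mem_span_image_finset_iff_exists_fun'] at h
  obtain ⟨c, hc⟩ := h
  set R := (blkd a L T).filter (fun m => n < m) with hR
  set S := R.filter (fun m => c m ≠ 0) with hS
  have hn' := mem_blkd.mp hn
  have hSm : ∀ m ∈ S, m ∈ blkd a L T ∧ n < m := by
    intro m hm
    exact Finset.mem_filter.mp (Finset.mem_filter.mp hm).1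
  have hvec : ∀ q : A, blk_vec A n q = ∑ m ∈ S, blk_vec A m q := by
    intro q
    have h1 := congrFun hc q
    rw [Finset.sum_apply] at h1
    have h2 : ∑ m ∈ S, blk_vec A m q = ∑ m ∈ R, (if c m ≠ 0 then blk_vec A m q else 0) := by
      rw [hS]
      exact Finset.sum_filter _ _
    rw [← h1, h2]
    apply Finset.sum_congr rfl
    intro m _
    by_cases hcm : c m = 0
    · simp [hcm]
    · have : c m = 1 := by
        generalize c m = z at hcm
        revert z
        decide
      simp [this]
  have hne : ∀ m ∈ S, m ≠ 0 := by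
    intro m hm
    have := (hSm m hm).2
    omega
  have hsquare : IsSquare (n * ∏ m ∈ S, m) := by
    apply isSquare_of_even
    · apply mul_ne_zero
      · omega
      · exact Finset.prod_ne_zero_iff.mpr hne
    · intro q
      rw [Nat.factorization_mul (by omega) (Finset.prod_ne_zero_iff.mpr hne),
        Finsupp.add_apply, Nat.factorization_prod_apply hne]
      by_cases hq : q ∈ A
      · have h1 := hvec ⟨q, hq⟩
        unfold blk_vec at h1
        simp only at h1
        rw [← ZMod.natCast_eq_zero_iff_even]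
        push_cast
        rw [h1]
        exact CharTwo.add_self_eq_zero _
      · have hev : ∀ k ∈ blkd a L T, Even (k.factorization q) := by
          intro k hk
          by_contra hcon
          exact hq (hA k hk q (Nat.not_even_iff_odd.mp hcon))
        exact (hev n hn).add (Finset.even_sum _ fun m hm => hev m (hSm m hm).1)
  have hSne : S.Nonempty := by
    by_contra hemp
    rw [Finset.not_nonempty_iff_eq_empty] at hemp
    rw [hemp] at hsquare
    simp at hsquare
    exact hsq hsquare
  refine ⟨S, hSne, ?_, hsquare⟩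
  intro m hm
  have h1 := hSm m hm
  have h2 := mem_blkd.mp h1.1
  exact Finset.mem_Icc.mpr ⟨by omega, by omega⟩

/-- in a block, the nonsquare `n` with a later partner for their own `Pd n` which do not have
`t_n ≤ L` are few -/
theorem card_block (a L T M : ℕ) :
    {n | n ∈ blkd a L T ∧ ¬ IsSquare n ∧
      (∃ b ∈ blkd a L T, n < b ∧ Odd (b.factorization (Pd n))) ∧ ¬ Works n L}.ncard ≤
      (Nat.primesLE M).card + ∑ k ∈ Finset.Ioc a (a + L), prs M T k := by
  classical
  set B := blkd a L T with hB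
  set A : Finset ℕ := (Nat.primesLE T).filter (fun q => ∃ k ∈ B, Odd (k.factorization q)) with hAdef
  have hpr : ∀ {k q : ℕ}, Odd (k.factorization q) → q.Prime := by
    intro k q h
    by_contra hq
    rw [Nat.factorization_eq_zero_of_not_prime _ hq] at h
    exact absurd h (by decide)
  have hA : ∀ k ∈ B, ∀ q, Odd (k.factorization q) → q ∈ A := by
    intro k hk q hq
    rw [hAdef, Finset.mem_filter, Nat.mem_primesLE]
    exact ⟨⟨(le_Pd hq).trans (mem_blkd.mp hk).2, hpr hq⟩, k, hk, hq⟩
  -- the last element with an odd exponent at `q`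
  have hlast : ∀ q ∈ A, ∃ k ∈ B, Odd (k.factorization q) ∧
      ∀ m ∈ B, k < m → ¬ Odd (m.factorization q) := by
    intro q hq
    rw [hAdef, Finset.mem_filter] at hq
    obtain ⟨-, k₀, hk₀, hk₀'⟩ := hq
    have hne : (B.filter (fun k => Odd (k.factorization q))).Nonempty :=
      ⟨k₀, Finset.mem_filter.mpr ⟨hk₀, hk₀'⟩⟩
    have h1 := Finset.max'_mem _ hne
    rw [Finset.mem_filter] at h1
    refine ⟨_, h1.1, h1.2, ?_⟩
    intro m hm hlt hodd
    have hmem : m ∈ B.filter (fun k => Odd (k.factorization q)) :=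
      Finset.mem_filter.mpr ⟨hm, hodd⟩
    have := Finset.le_max' _ m hmem
    omega
  choose! κ hκB hκodd hκlast using hlast
  set G : Finset ℕ := A.filter (fun q => Pd (κ q) = q) with hG
  set W : Finset ℕ := A.filter (fun q => ¬ Pd (κ q) = q) with hW
  set Exc : Set ℕ := {n | n ∈ B ∧ blk_vec A n ∉
    Submodule.span (ZMod 2) (blk_vec A '' {m | m ∈ B ∧ n < m})} with hExc
  have hExcfin : Exc.Finite := B.finite_toSet.subset fun n hn => hn.1
  have hrank : Exc.ncard ≤ A.card := by
    have h1 := card_bad_le (K := ZMod 2) B (blk_vec A)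
    refine h1.trans ?_
    calc _ ≤ Module.finrank (ZMod 2) (A → ZMod 2) := Submodule.finrank_le _
      _ = _ := by rw [Module.finrank_fintype_fun_eq_card, Fintype.card_coe]
  set Bad : Set ℕ := {n | n ∈ B ∧ ¬ IsSquare n ∧
      (∃ b ∈ B, n < b ∧ Odd (b.factorization (Pd n))) ∧ ¬ Works n L} with hBad
  have hBadfin : Bad.Finite := B.finite_toSet.subset fun n hn => hn.1
  have hsub1 : Bad ⊆ Exc := by
    rintro n ⟨h1, h2, -, h4⟩
    exact ⟨h1, fun hspan => h4 (blk_works h1 h2 hA hspan)⟩
  have hsub2 : κ '' (G : Set ℕ) ⊆ Exc := by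
    rintro _ ⟨q, hq, rfl⟩
    have hq' := Finset.mem_filter.mp (Finset.mem_coe.mp hq)
    refine ⟨hκB q hq'.1, fun hspan => ?_⟩
    have hker : Submodule.span (ZMod 2) (blk_vec A '' {m | m ∈ B ∧ κ q < m}) ≤
        LinearMap.ker (LinearMap.proj (R := ZMod 2) (φ := fun _ : A => ZMod 2)
          (⟨q, hq'.1⟩ : A)) := by
      rw [Submodule.span_le]
      rintro _ ⟨m, ⟨hm1, hm2⟩, rfl⟩
      rw [SetLike.mem_coe, LinearMap.mem_ker]
      exact blk_vec_eq_zero (q := ⟨q, hq'.1⟩)
        (Nat.not_odd_iff_even.mp (hκlast q hq'.1 m hm1 hm2))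
    have h0 := hker hspan
    rw [LinearMap.mem_ker] at h0
    exact blk_vec_ne_zero (q := ⟨q, hq'.1⟩) (hκodd q hq'.1) h0
  have hdisj : Disjoint Bad (κ '' (G : Set ℕ)) := by
    rw [Set.disjoint_left]
    rintro _ ⟨-, -, ⟨b, hb, hlt, hbo⟩, -⟩ ⟨q, hq, rfl⟩
    have hq' := Finset.mem_filter.mp (Finset.mem_coe.mp hq)
    rw [hq'.2] at hbo
    exact hκlast q hq'.1 b hb hlt hbo
  have hinj : Set.InjOn κ (G : Set ℕ) := by
    intro q hq r hr h
    have hq' := Finset.mem_filter.mp (Finset.mem_coe.mp hq)
    have hr' := Finset.mem_filter.mp (Finset.mem_coe.mp hr)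
    rw [← hq'.2, ← hr'.2, h]
  have hcard : Bad.ncard + G.card ≤ A.card := by
    have h1 : (κ '' (G : Set ℕ)).ncard = G.card := by
      rw [Set.ncard_image_of_injOn hinj, Set.ncard_coe_finset]
    have h2 := Set.ncard_union_eq hdisj hBadfin (G.finite_toSet.image κ)
    rw [h1] at h2
    rw [← h2]
    exact (Set.ncard_le_ncard (Set.union_subset hsub1 hsub2) hExcfin).trans hrank
  have hsplit : G.card + W.card = A.card := by
    rw [hG, hW]
    exact Finset.card_filter_add_card_filter_not _
  have hBW : Bad.ncard ≤ W.card := by omega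
  refine hBW.trans ?_
  -- bound of `W`
  have hWprop : ∀ q ∈ W, q ∈ A ∧ q < Pd (κ q) := by
    intro q hq
    have hq' := Finset.mem_filter.mp hq
    have h1 := le_Pd (hκodd q hq'.1)
    exact ⟨hq'.1, by
      rcases lt_or_eq_of_le h1 with h | h
      · exact h
      · exact absurd h.symm hq'.2⟩
  set W1 := W.filter (fun q => q ≤ M) with hW1
  set W2 := W.filter (fun q => ¬ q ≤ M) with hW2
  have hW12 : W1.card + W2.card = W.card := by
    rw [hW1, hW2]
    exact Finset.card_filter_add_card_filter_not _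
  have hc1 : W1.card ≤ (Nat.primesLE M).card := by
    apply Finset.card_le_card
    intro q hq
    rw [hW1, Finset.mem_filter] at hq
    rw [Nat.mem_primesLE]
    exact ⟨hq.2, hpr (hκodd q (hWprop q hq.1).1)⟩
  have hc2 : W2.card ≤ ∑ k ∈ Finset.Ioc a (a + L), prs M T k := by
    have he : ∑ k ∈ Finset.Ioc a (a + L), prs M T k =
        ((Finset.Ioc a (a + L)).sigma (fun k => (Nat.primesLE T ×ˢ Nat.primesLE T).filter
          (fun r => M < r.1 ∧ r.1 < r.2 ∧ r.1 * r.2 ∣ k))).card := by
      rw [Finset.card_sigma]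
      rfl
    rw [he]
    apply Finset.card_le_card_of_injOn (fun q => (⟨κ q, (q, Pd (κ q))⟩ : (_ : ℕ) × (ℕ × ℕ)))
    · intro q hq
      rw [hW2, Finset.coe_filter] at hq
      have hq1 := hWprop q hq.1
      have hkB := mem_blkd.mp (hκB q hq1.1)
      have hqp : q.Prime := hpr (hκodd q hq1.1)
      have hk0 : 1 ≤ κ q := by omega
      have hksq : ¬ IsSquare (κ q) := by
        rintro ⟨r, hr⟩
        have hr0 : r ≠ 0 := by
          rintro rfl
          omega
        have h1 := hκodd q hq1.1
        rw [hr, Nat.factorization_mul hr0 hr0, Finsupp.add_apply] at h1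
        exact (Nat.not_odd_iff_even.mpr ⟨_, rfl⟩) h1
      have hP := Pd_spec hk0 hksq
      rw [Finset.coe_sigma, Set.mem_sigma_iff]
      refine ⟨?_, ?_⟩
      · rw [Finset.mem_coe, Finset.mem_Ioc]
        exact hkB.1
      · rw [Finset.coe_filter, Set.mem_setOf_eq, Finset.mem_product, Nat.mem_primesLE,
          Nat.mem_primesLE]
        refine ⟨⟨⟨?_, hqp⟩, hkB.2, hP.1⟩, not_le.mp hq.2, hq1.2, ?_⟩
        · exact (hq1.2.le).trans hkB.2
        · have hd1 : q ∣ κ q := by
            by_contra hnd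
            have h1 := hκodd q hq1.1
            rw [Nat.factorization_eq_zero_of_not_dvd hnd] at h1
            exact absurd h1 (by decide)
          have hd2 : Pd (κ q) ∣ κ q := by
            by_contra hnd
            have h1 := hP.2
            rw [Nat.factorization_eq_zero_of_not_dvd hnd] at h1
            exact absurd h1 (by decide)
          exact Nat.Coprime.mul_dvd_of_dvd_of_dvd
            ((Nat.coprime_primes hqp hP.1).mpr hq1.2.ne) hd1 hd2
    · intro q hq r hr h
      simp only [Sigma.mk.injEq, heq_eq_eq, Prod.mk.injEq] at h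
      exact h.2.1
  omega

end Pool.Agent.TNA
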