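import Pool.Agent.TN.Core

set_option autoImplicit false

/-!
# `t_n ~ F(n)` for almost all `n`: definitions
-/

namespace Pool.Agent.TNA

open Pool.Agent.TN

/-- the largest prime with an odd exponent in `n` (`0` if there is none) -/
def Pd (n : ℕ) : ℕ := (n.primeFactors.filter (fun p => Odd (n.factorization p))).sup id

/-- least `t` such that some `a ∈ (n, n + t]` is divisible by `Pd n` to an odd power and
`Pd a ≤ t` -/
noncomputable def F (n : ℕ) : ℕ :=
  sInf {t : ℕ | ∃ a, n < a ∧ a ≤ n + t ∧ Odd (a.factorization (Pd n)) ∧ Pd a ≤ t}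

/-- the `k ∈ (a, a + L]` with `Pd k ≤ T` -/
def blkd (a L T : ℕ) : Finset ℕ := (Finset.Ioc a (a + L)).filter (fun n => Pd n ≤ T)

/-- number of pairs of primes `p < q` in `(M, T]` with `p q ∣ k` -/
def prs (M T k : ℕ) : ℕ :=
  ((Nat.primesLE T ×ˢ Nat.primesLE T).filter
    (fun r => M < r.1 ∧ r.1 < r.2 ∧ r.1 * r.2 ∣ k)).card

end Pool.Agent.TNA
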