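import Pool.Agent.TNA.Defs
import Pool.Agent.TN.Cheb

set_option autoImplicit false

/-!
# Numerical bounds

Recipes. `sum_prs`: exchange the sums: for a pair `p < q` the number of multiples of `p q` in
`(0, X]` is `X / (p q) ≤ X / (p q)` real (`Nat.card_multiples`/`Nat.Ioc_filter_dvd_card_eq_div`);
the sum over pairs `M < p < q ≤ T` of `1/(p q)` is at most the square of the sum.
`sum_inv`: split `(2^(i-k), 2^(i+2)]` in the `k + 2` dyadic pieces `(2^j, 2^(j+1)]`,
`i - k ≤ j ≤ i + 1`; on each piece `∑ 1/p ≤ #primesLE (2^(j+1)) / 2^j ≤ 12 / (j+1) ≤ 12/(i-k)` by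
`TN.card_primesLE_two_pow`.
-/

namespace Pool.Agent.TNA

open Pool.Agent.TN Finset

theorem num_piece (b : ℕ) :
    ∑ p ∈ (Nat.primesLE (2 ^ (b + 1))).filter (fun p => 2 ^ b < p), (1 : ℝ) / p ≤ 12 / ((b + 1 : ℕ) : ℝ) := by
  have h1 : ∑ p ∈ (Nat.primesLE (2 ^ (b + 1))).filter (fun p => 2 ^ b < p), (1 : ℝ) / p ≤
      ∑ _p ∈ (Nat.primesLE (2 ^ (b + 1))).filter (fun p => 2 ^ b < p), (1 : ℝ) / 2 ^ b := by
    refine Finset.sum_le_sum fun p hp => ?_
    have h2 : 2 ^ b ≤ p := (Finset.mem_filter.1 hp).2.le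
    refine div_le_div_of_nonneg_left (by norm_num) (by positivity) ?_
    exact_mod_cast h2
  refine h1.trans ?_
  rw [Finset.sum_const, nsmul_eq_mul, mul_one_div, div_le_iff₀ (by positivity)]
  have h3 : (((Nat.primesLE (2 ^ (b + 1))).filter (fun p => 2 ^ b < p)).card : ℝ) ≤
      ((Nat.primesLE (2 ^ (b + 1))).card : ℝ) := by
    exact_mod_cast Finset.card_filter_le _ _
  refine h3.trans ((card_primesLE_two_pow (b + 1) (by omega)).trans (le_of_eq ?_))
  rw [pow_succ]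
  ring

theorem num_step (a b : ℕ) :
    ∑ p ∈ (Nat.primesLE (2 ^ (b + 1))).filter (fun p => 2 ^ a < p), (1 : ℝ) / p ≤
      ∑ p ∈ (Nat.primesLE (2 ^ b)).filter (fun p => 2 ^ a < p), (1 : ℝ) / p + 12 / ((b + 1 : ℕ) : ℝ) := by
  rw [← Finset.sum_filter_add_sum_filter_not _ (fun p => p ≤ 2 ^ b)]
  refine add_le_add ?_ ((Finset.sum_le_sum_of_subset_of_nonneg ?_ ?_).trans (num_piece b))
  · refine Finset.sum_le_sum_of_subset_of_nonneg ?_ fun p _ _ => by positivity
    intro p hp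
    rw [Finset.mem_filter, Finset.mem_filter, Nat.mem_primesLE] at hp
    rw [Finset.mem_filter, Nat.mem_primesLE]
    exact ⟨⟨hp.2, hp.1.1.2⟩, hp.1.2⟩
  · intro p hp
    rw [Finset.mem_filter, Finset.mem_filter] at hp
    rw [Finset.mem_filter]
    exact ⟨hp.1.1, not_le.1 hp.2⟩
  · intro p _ _
    positivity

theorem prs_mono {M T T' k : ℕ} (h : T ≤ T') : prs M T k ≤ prs M T' k := by
  unfold prs
  refine Finset.card_le_card ?_
  intro r hr
  rw [Finset.mem_filter, Finset.mem_product, Nat.mem_primesLE, Nat.mem_primesLE] at hr ⊢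
  exact ⟨⟨⟨hr.1.1.1.trans h, hr.1.1.2⟩, ⟨hr.1.2.1.trans h, hr.1.2.2⟩⟩, hr.2⟩

/-- `∑_{k ≤ X} prs M T k ≤ X (∑_{M < p ≤ T} 1/p)²` -/
theorem sum_prs (X M T : ℕ) :
    ((∑ k ∈ Finset.Ioc 0 X, prs M T k : ℕ) : ℝ) ≤
      X * (∑ p ∈ (Nat.primesLE T).filter (fun p => M < p), (1 : ℝ) / p) ^ 2 := by
  classical
  have h1 : ∑ k ∈ Finset.Ioc 0 X, prs M T k =
      ∑ r ∈ (Nat.primesLE T ×ˢ Nat.primesLE T).filter (fun r => M < r.1 ∧ r.1 < r.2), X / (r.1 * r.2) := by
    unfold prs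
    simp only [Finset.card_filter]
    rw [Finset.sum_comm, Finset.sum_filter]
    refine Finset.sum_congr rfl fun r _ => ?_
    by_cases hr : M < r.1 ∧ r.1 < r.2
    · rw [if_pos hr, ← Nat.Ioc_filter_dvd_card_eq_div, Finset.card_filter]
      refine Finset.sum_congr rfl fun k _ => ?_
      simp only [hr.1, hr.2, true_and]
    · rw [if_neg hr]
      refine Finset.sum_eq_zero fun k _ => ?_
      rw [if_neg]
      rintro ⟨h2, h3, _⟩
      exact hr ⟨h2, h3⟩
  rw [h1, sq, Finset.sum_mul_sum, ← Finset.sum_product', Nat.cast_sum, Finset.mul_sum]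
  refine (Finset.sum_le_sum (g := fun r : ℕ × ℕ => (X : ℝ) * (1 / (r.1 : ℝ) * (1 / (r.2 : ℝ)))) ?_).trans ?_
  · intro r _
    refine Nat.cast_div_le.trans (le_of_eq ?_)
    push_cast
    rw [one_div_mul_one_div, mul_one_div]
  · refine Finset.sum_le_sum_of_subset_of_nonneg ?_ ?_
    · intro r hr
      rw [Finset.mem_filter, Finset.mem_product] at hr
      rw [Finset.mem_product, Finset.mem_filter, Finset.mem_filter]
      exact ⟨⟨hr.1.1, hr.2.1⟩, ⟨hr.1.2, hr.2.1.trans hr.2.2⟩⟩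
    · intro r _ _
      positivity

/-- `∑_{2^(i-k) < p ≤ 2^(i+2)} 1/p ≤ 12 (k+2)/(i-k)` -/
theorem sum_inv (i k : ℕ) (hk : k < i) :
    ∑ p ∈ (Nat.primesLE (2 ^ (i + 2))).filter (fun p => 2 ^ (i - k) < p), (1 : ℝ) / p ≤
      12 * (k + 2) / ((i - k : ℕ) : ℝ) := by
  have key : ∀ m : ℕ, ∑ p ∈ (Nat.primesLE (2 ^ (i - k + m))).filter (fun p => 2 ^ (i - k) < p), (1 : ℝ) / p ≤
      12 * m / ((i - k : ℕ) : ℝ) := by
    intro m
    induction m with
    | zero =>
      rw [Finset.sum_eq_zero]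
      · simp
      · intro p hp
        rw [Finset.mem_filter, Nat.mem_primesLE, add_zero] at hp
        omega
    | succ m ih =>
      have h1 := num_step (i - k) (i - k + m)
      have hpos : (0 : ℝ) < ((i - k : ℕ) : ℝ) := by
        have : 0 < i - k := by omega
        exact_mod_cast this
      have h2 : (12 : ℝ) / ((i - k + m + 1 : ℕ) : ℝ) ≤ 12 / ((i - k : ℕ) : ℝ) := by
        refine div_le_div_of_nonneg_left (by norm_num) hpos ?_
        have : i - k ≤ i - k + m + 1 := by omega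
        exact_mod_cast this
      rw [← add_assoc]
      refine h1.trans ((add_le_add ih h2).trans (le_of_eq ?_))
      push_cast
      ring
  have h1 := key (k + 2)
  rw [show i - k + (k + 2) = i + 2 by omega] at h1
  push_cast at h1
  exact h1

end Pool.Agent.TNA
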