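import Pool.Agent.TNA.Slide
import Pool.Agent.TNA.Num

set_option autoImplicit false

/-!
# One dyadic scale
-/

namespace Pool.Agent.TNA

open Pool.Agent.TN Finset

/-- the union bound -/
theorem dyad_union {A : Set ℕ} (N J : ℕ) (B : ℕ → Set ℕ) (hB : ∀ j, B j ⊆ {n | 1 ≤ n ∧ n ≤ N})
    (h : ∀ n ∈ A, ∃ j ∈ Finset.Icc 1 J, n ∈ B j) : A.ncard ≤ ∑ j ∈ Finset.Icc 1 J, (B j).ncard := by
  classical
  have hfin : {n : ℕ | 1 ≤ n ∧ n ≤ N}.Finite := (Set.finite_Iic N).subset fun n hn => hn.2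
  have hBf : ∀ j, (B j).Finite := fun j => hfin.subset (hB j)
  have h1 : A ⊆ ((Finset.Icc 1 J).biUnion fun j => (hBf j).toFinset : Finset ℕ) := by
    intro n hn
    obtain ⟨j, hj, hnj⟩ := h n hn
    rw [Finset.mem_coe, Finset.mem_biUnion]
    exact ⟨j, hj, (hBf j).mem_toFinset.mpr hnj⟩
  calc A.ncard ≤ (((Finset.Icc 1 J).biUnion fun j => (hBf j).toFinset : Finset ℕ) : Set ℕ).ncard :=
        Set.ncard_le_ncard h1 (Finset.finite_toSet _)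
    _ = ((Finset.Icc 1 J).biUnion fun j => (hBf j).toFinset).card := Set.ncard_coe_finset _
    _ ≤ ∑ j ∈ Finset.Icc 1 J, (hBf j).toFinset.card := Finset.card_biUnion_le
    _ = ∑ j ∈ Finset.Icc 1 J, (B j).ncard :=
        Finset.sum_congr rfl fun j _ => (Set.ncard_eq_toFinset_card (B j) (hBf j)).symm

/-- one level -/
theorem dyad_level (N i k s j : ℕ) (hk : k < i) (hs : 1 ≤ s) (hsi : s ≤ 2 ^ i) (hN : 2 ^ i ≤ 3 * N) (hj : j ≤ 2 * s) :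
    ({n | (1 ≤ n ∧ n ≤ N) ∧ ¬ IsSquare n ∧ F n ≤ 2 ^ i + j * (2 ^ i / s) ∧
      2 ^ i + j * (2 ^ i / s) + 2 ^ i / s < tn n}.ncard : ℝ) ≤
      30 * s * N / (2 ^ k * ((i - k : ℕ) : ℝ)) +
        20000 * s * N * ((k : ℝ) + 2) ^ 2 / ((i - k : ℕ) : ℝ) ^ 2 := by
  have hs0 : 0 < s := hs
  set h : ℕ := 2 ^ i / s with hdef
  have hh : 1 ≤ h := Nat.div_pos hsi hs0
  have h1 : s * h ≤ 2 ^ i := Nat.mul_div_le _ _
  have h2 : 2 ^ i ≤ 2 * (s * h) := by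
    have h3 := Nat.lt_mul_div_succ (2 ^ i) hs0
    have h4 : s ≤ s * h := Nat.le_mul_of_pos_right s hh
    have h5 : s * (2 ^ i / s + 1) = s * h + s := by rw [← hdef]; ring
    rw [h5] at h3
    omega
  have h6 : j * h ≤ 2 * (s * h) := by
    calc j * h ≤ 2 * s * h := Nat.mul_le_mul_right h hj
      _ = 2 * (s * h) := by ring
  have h7 : h ≤ s * h := Nat.le_mul_of_pos_left h hs0
  have hslide := card_slide N (2 ^ i + j * h) h (2 ^ (i - k)) hh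
  have hpi := card_primesLE_two_pow (i - k) (by omega)
  have hik : (1 : ℝ) ≤ ((i - k : ℕ) : ℝ) := by exact_mod_cast (by omega : 1 ≤ i - k)
  have hsR : (1 : ℝ) ≤ s := by exact_mod_cast hs
  have hhR : (1 : ℝ) ≤ h := by exact_mod_cast hh
  have hNR : (0 : ℝ) ≤ N := Nat.cast_nonneg N
  -- first factor
  have f1 : ((N / h + 1 : ℕ) : ℝ) ≤ 5 * s * N / 2 ^ i := by
    have e1 : ((N / h : ℕ) : ℝ) ≤ N / h := Nat.cast_div_le
    have e2 : (2 : ℝ) ^ i ≤ 2 * (s * h) := by exact_mod_cast h2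
    have e3 : (N : ℝ) / h ≤ 2 * s * N / 2 ^ i := by
      rw [div_le_div_iff₀ (by positivity) (by positivity)]
      nlinarith
    have e4 : (1 : ℝ) ≤ 3 * s * N / 2 ^ i := by
      rw [le_div_iff₀ (by positivity), one_mul]
      have e5 : (2 : ℝ) ^ i ≤ 3 * N := by exact_mod_cast hN
      nlinarith
    push_cast
    calc ((N / h : ℕ) : ℝ) + 1 ≤ 2 * s * N / 2 ^ i + 3 * s * N / 2 ^ i := add_le_add (e1.trans e3) e4
      _ = 5 * s * N / 2 ^ i := by ring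
  have f2 : ((N / h + 1 : ℕ) : ℝ) * ((Nat.primesLE (2 ^ (i - k))).card : ℝ) ≤
      30 * s * N / (2 ^ k * ((i - k : ℕ) : ℝ)) := by
    calc ((N / h + 1 : ℕ) : ℝ) * ((Nat.primesLE (2 ^ (i - k))).card : ℝ)
        ≤ (5 * s * N / 2 ^ i) * (6 * 2 ^ (i - k) / ((i - k : ℕ) : ℝ)) :=
          mul_le_mul f1 hpi (Nat.cast_nonneg _) (by positivity)
      _ = 30 * s * N / (2 ^ k * ((i - k : ℕ) : ℝ)) := by
          have e6 : (2 : ℝ) ^ i = 2 ^ (i - k) * 2 ^ k := by rw [← pow_add, Nat.sub_add_cancel hk.le]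
          rw [e6]
          field_simp
          ring
  -- second factor
  have g1 : (2 ^ i + j * h + h) / h + 1 ≤ 6 * s := by
    have e1 : 2 ^ i + j * h + h ≤ (4 * s + 1) * h := by nlinarith
    have e2 : (2 ^ i + j * h + h) / h ≤ 4 * s + 1 := Nat.div_le_of_le_mul (by rw [mul_comm h]; exact e1)
    omega
  have g2 : 2 ^ i + j * h ≤ 2 ^ (i + 2) := by
    have : 2 ^ (i + 2) = 4 * 2 ^ i := by ring
    rw [this]
    omega
  have g3 : N + (2 ^ i + j * h) + h ≤ 13 * N := by omega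
  have g4 : ∑ m ∈ Finset.Ioc 0 (N + (2 ^ i + j * h) + h), prs (2 ^ (i - k)) (2 ^ i + j * h) m ≤
      ∑ m ∈ Finset.Ioc 0 (13 * N), prs (2 ^ (i - k)) (2 ^ (i + 2)) m := by
    calc ∑ m ∈ Finset.Ioc 0 (N + (2 ^ i + j * h) + h), prs (2 ^ (i - k)) (2 ^ i + j * h) m
        ≤ ∑ m ∈ Finset.Ioc 0 (N + (2 ^ i + j * h) + h), prs (2 ^ (i - k)) (2 ^ (i + 2)) m :=
          Finset.sum_le_sum fun m _ => prs_mono g2
      _ ≤ _ := Finset.sum_le_sum_of_subset (Finset.Ioc_subset_Ioc_right g3)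
  have g5 : ((∑ m ∈ Finset.Ioc 0 (13 * N), prs (2 ^ (i - k)) (2 ^ (i + 2)) m : ℕ) : ℝ) ≤
      1872 * N * ((k : ℝ) + 2) ^ 2 / ((i - k : ℕ) : ℝ) ^ 2 := by
    have e1 := sum_prs (13 * N) (2 ^ (i - k)) (2 ^ (i + 2))
    have e2 := sum_inv i k hk
    have e3 : (0 : ℝ) ≤ ∑ p ∈ (Nat.primesLE (2 ^ (i + 2))).filter (fun p => 2 ^ (i - k) < p), (1 : ℝ) / p :=
      Finset.sum_nonneg fun p _ => by positivity
    have e4 := pow_le_pow_left₀ e3 e2 2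
    refine e1.trans ?_
    calc ((13 * N : ℕ) : ℝ) * (∑ p ∈ (Nat.primesLE (2 ^ (i + 2))).filter (fun p => 2 ^ (i - k) < p), (1 : ℝ) / p) ^ 2
        ≤ ((13 * N : ℕ) : ℝ) * (12 * (k + 2) / ((i - k : ℕ) : ℝ)) ^ 2 :=
          mul_le_mul_of_nonneg_left e4 (Nat.cast_nonneg _)
      _ = 1872 * N * ((k : ℝ) + 2) ^ 2 / ((i - k : ℕ) : ℝ) ^ 2 := by
          push_cast
          field_simp
          ring
  have g6 : (((2 ^ i + j * h + h) / h + 1 : ℕ) : ℝ) *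
      ((∑ m ∈ Finset.Ioc 0 (N + (2 ^ i + j * h) + h), prs (2 ^ (i - k)) (2 ^ i + j * h) m : ℕ) : ℝ) ≤
      20000 * s * N * ((k : ℝ) + 2) ^ 2 / ((i - k : ℕ) : ℝ) ^ 2 := by
    have e1 : (((2 ^ i + j * h + h) / h + 1 : ℕ) : ℝ) ≤ 6 * s := by exact_mod_cast g1
    have e2 : ((∑ m ∈ Finset.Ioc 0 (N + (2 ^ i + j * h) + h), prs (2 ^ (i - k)) (2 ^ i + j * h) m : ℕ) : ℝ) ≤
        1872 * N * ((k : ℝ) + 2) ^ 2 / ((i - k : ℕ) : ℝ) ^ 2 := le_trans (by exact_mod_cast g4) g5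
    calc _ ≤ (6 * s : ℝ) * (1872 * N * ((k : ℝ) + 2) ^ 2 / ((i - k : ℕ) : ℝ) ^ 2) :=
          mul_le_mul e1 e2 (Nat.cast_nonneg _) (by positivity)
      _ = 11232 * (s * N * ((k : ℝ) + 2) ^ 2 / ((i - k : ℕ) : ℝ) ^ 2) := by ring
      _ ≤ 20000 * (s * N * ((k : ℝ) + 2) ^ 2 / ((i - k : ℕ) : ℝ) ^ 2) := by
          refine mul_le_mul_of_nonneg_right (by norm_num) (by positivity)
      _ = _ := by ring
  calc ({n | (1 ≤ n ∧ n ≤ N) ∧ ¬ IsSquare n ∧ F n ≤ 2 ^ i + j * h ∧ 2 ^ i + j * h + h < tn n}.ncard : ℝ)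
      ≤ (((N / h + 1) * (Nat.primesLE (2 ^ (i - k))).card + ((2 ^ i + j * h + h) / h + 1) *
          ∑ m ∈ Finset.Ioc 0 (N + (2 ^ i + j * h) + h), prs (2 ^ (i - k)) (2 ^ i + j * h) m : ℕ) : ℝ) := by
        exact_mod_cast hslide
    _ = ((N / h + 1 : ℕ) : ℝ) * ((Nat.primesLE (2 ^ (i - k))).card : ℝ) + (((2 ^ i + j * h + h) / h + 1 : ℕ) : ℝ) *
      ((∑ m ∈ Finset.Ioc 0 (N + (2 ^ i + j * h) + h), prs (2 ^ (i - k)) (2 ^ i + j * h) m : ℕ) : ℝ) := by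
        rw [Nat.cast_add, Nat.cast_mul, Nat.cast_mul]
    _ ≤ _ := add_le_add f2 g6

/-- explicit form; `h = ⌊2^i / s⌋`, levels `T_j = 2^i + j h`, `1 ≤ j ≤ 2 s` -/
theorem dyad_explicit (N i k s : ℕ) (hk : k < i) (hs : 1 ≤ s) (hsi : s ≤ 2 ^ i)
    (hN : 2 ^ i ≤ 3 * N) :
    ({n | (1 ≤ n ∧ n ≤ N) ∧ ¬ IsSquare n ∧ (2 ^ i < F n ∧ F n ≤ 2 ^ (i + 1)) ∧
      (1 + 2 / (s : ℝ)) * F n < tn n}.ncard : ℝ) ≤
      60 * s ^ 2 * N / (2 ^ k * ((i - k : ℕ) : ℝ)) +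
        40000 * s ^ 2 * N * ((k : ℝ) + 2) ^ 2 / ((i - k : ℕ) : ℝ) ^ 2 := by
  have hs0 : 0 < s := hs
  have hsR : (1 : ℝ) ≤ s := by exact_mod_cast hs
  have hu := dyad_union (A := {n | (1 ≤ n ∧ n ≤ N) ∧ ¬ IsSquare n ∧ (2 ^ i < F n ∧ F n ≤ 2 ^ (i + 1)) ∧
      (1 + 2 / (s : ℝ)) * F n < tn n}) N (2 * s) (fun j => {n | (1 ≤ n ∧ n ≤ N) ∧ ¬ IsSquare n ∧
      F n ≤ 2 ^ i + j * (2 ^ i / s) ∧ 2 ^ i + j * (2 ^ i / s) + 2 ^ i / s < tn n}) (fun j n hn => hn.1) (by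
    rintro n ⟨hn, hsq, ⟨hF1, hF2⟩, ht⟩
    set h : ℕ := 2 ^ i / s with hdef
    have hh : 1 ≤ h := Nat.div_pos hsi hs0
    have h1 : s * h ≤ 2 ^ i := Nat.mul_div_le _ _
    have h2 : 2 ^ i ≤ 2 * (s * h) := by
      have h3 := Nat.lt_mul_div_succ (2 ^ i) hs0
      have h4 : s ≤ s * h := Nat.le_mul_of_pos_right s hh
      have h5 : s * (2 ^ i / s + 1) = s * h + s := by rw [← hdef]; ring
      rw [h5] at h3
      omega
    have hex : ∃ j, F n ≤ 2 ^ i + j * h := by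
      refine ⟨2 * s, ?_⟩
      have e1 : 2 ^ (i + 1) = 2 ^ i + 2 ^ i := by ring
      have e2 : 2 * s * h = 2 * (s * h) := by ring
      rw [e2]
      omega
    have hj1 := Nat.find_spec hex
    have hj2 : Nat.find hex ≤ 2 * s := Nat.find_min' hex (by
      have e1 : 2 ^ (i + 1) = 2 ^ i + 2 ^ i := by ring
      have e2 : 2 * s * h = 2 * (s * h) := by ring
      rw [e2]
      omega)
    have hj3 : 1 ≤ Nat.find hex := by
      by_contra hc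
      have : Nat.find hex = 0 := by omega
      rw [this] at hj1
      omega
    have hj4 : ¬ (F n ≤ 2 ^ i + (Nat.find hex - 1) * h) := Nat.find_min hex (by omega)
    refine ⟨Nat.find hex, Finset.mem_Icc.mpr ⟨hj3, hj2⟩, hn, hsq, hj1, ?_⟩
    have hlt : F n + 2 * h < tn n := by
      have e1 : (s : ℝ) * h ≤ 2 ^ i := by exact_mod_cast h1
      have e2 : (2 : ℝ) ^ i ≤ F n := by exact_mod_cast hF1.le
      have e3 : (h : ℝ) ≤ F n / s := by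
        rw [le_div_iff₀ (by positivity)]
        linarith
      have e4 : ((F n + 2 * h : ℕ) : ℝ) < (tn n : ℝ) := by
        refine lt_of_le_of_lt ?_ ht
        push_cast
        have e5 : (1 + 2 / (s : ℝ)) * F n = F n + 2 * (F n / s) := by ring
        rw [e5]
        linarith
      exact_mod_cast e4
    have e6 : Nat.find hex * h = (Nat.find hex - 1) * h + h := by
      obtain ⟨j', hj'⟩ : ∃ j', Nat.find hex = j' + 1 := ⟨Nat.find hex - 1, by omega⟩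
      rw [hj', Nat.add_sub_cancel]
      ring
    rw [e6]
    omega)
  have hsum : (∑ j ∈ Finset.Icc 1 (2 * s), (({n | (1 ≤ n ∧ n ≤ N) ∧ ¬ IsSquare n ∧
      F n ≤ 2 ^ i + j * (2 ^ i / s) ∧ 2 ^ i + j * (2 ^ i / s) + 2 ^ i / s < tn n}.ncard : ℕ) : ℝ)) ≤
      ∑ j ∈ Finset.Icc 1 (2 * s), (30 * s * N / (2 ^ k * ((i - k : ℕ) : ℝ)) +
        20000 * s * N * ((k : ℝ) + 2) ^ 2 / ((i - k : ℕ) : ℝ) ^ 2) :=
    Finset.sum_le_sum fun j hj => dyad_level N i k s j hk hs hsi hN (Finset.mem_Icc.mp hj).2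
  rw [Finset.sum_const, Nat.card_Icc, nsmul_eq_mul, Nat.add_sub_cancel] at hsum
  have hcast : ({n | (1 ≤ n ∧ n ≤ N) ∧ ¬ IsSquare n ∧ (2 ^ i < F n ∧ F n ≤ 2 ^ (i + 1)) ∧
      (1 + 2 / (s : ℝ)) * F n < tn n}.ncard : ℝ) ≤ (∑ j ∈ Finset.Icc 1 (2 * s), (({n | (1 ≤ n ∧ n ≤ N) ∧ ¬ IsSquare n ∧
      F n ≤ 2 ^ i + j * (2 ^ i / s) ∧ 2 ^ i + j * (2 ^ i / s) + 2 ^ i / s < tn n}.ncard : ℕ) : ℝ)) := by
    exact_mod_cast hu
  refine hcast.trans (hsum.trans (le_of_eq ?_))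
  push_cast
  ring

/-- at the scale `2^i`: all but `N / i^(5/4)` of the `n ≤ N` -/
theorem dyad : ∃ i₀ : ℕ, 1 ≤ i₀ ∧ ∀ i : ℕ, i₀ ≤ i → ∀ N : ℕ, 1 ≤ N →
    ({n | (1 ≤ n ∧ n ≤ N) ∧ ¬ IsSquare n ∧ (2 ^ i < F n ∧ F n ≤ 2 ^ (i + 1)) ∧
      (1 + 4 / (i : ℝ) ^ ((1 : ℝ) / 4)) * F n < tn n}.ncard : ℝ) ≤
      N / (i : ℝ) ^ ((5 : ℝ) / 4) := by
  have hev : ∀ᶠ i : ℕ in Filter.atTop, (600000000 : ℝ) ≤ (i : ℝ) ^ ((1 : ℝ) / 8) :=
    ((tendsto_rpow_atTop (by norm_num : (0 : ℝ) < 1 / 8)).comp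
      tendsto_natCast_atTop_atTop).eventually_ge_atTop _
  obtain ⟨i₁, hi₁⟩ := Filter.eventually_atTop.mp hev
  refine ⟨max i₁ 1, le_max_right _ _, ?_⟩
  intro i hi N hN1
  have hi1 : 1 ≤ i := (le_max_right _ _).trans hi
  have hx := hi₁ i ((le_max_left _ _).trans hi)
  have hiR : (1 : ℝ) ≤ i := by exact_mod_cast hi1
  have hi0 : (0 : ℝ) ≤ i := by linarith
  set y : ℝ := (i : ℝ) ^ ((1 : ℝ) / 16) with hy
  have hy1 : 1 ≤ y := Real.one_le_rpow hiR (by norm_num)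
  have hy0 : 0 < y := by linarith
  have hpow : ∀ m : ℕ, y ^ m = (i : ℝ) ^ ((m : ℝ) / 16) := by
    intro m
    rw [hy, ← Real.rpow_natCast, ← Real.rpow_mul hi0]
    congr 1
    ring
  have e2 : (600000000 : ℝ) ≤ y ^ 2 := by
    rw [hpow]
    have : ((2 : ℕ) : ℝ) / 16 = 1 / 8 := by norm_num
    rw [this]
    exact hx
  have e4 : (i : ℝ) ^ ((1 : ℝ) / 4) = y ^ 4 := by
    rw [hpow]
    norm_num
  have e16 : (i : ℝ) = y ^ 16 := by
    rw [hpow]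
    norm_num
  have e20 : (i : ℝ) ^ ((5 : ℝ) / 4) = y ^ 20 := by
    rw [hpow]
    norm_num
  rw [e4, e20]
  by_cases hN : 2 ^ i ≤ 3 * N
  swap
  · have hempty : {n | (1 ≤ n ∧ n ≤ N) ∧ ¬ IsSquare n ∧ (2 ^ i < F n ∧ F n ≤ 2 ^ (i + 1)) ∧
      (1 + 4 / y ^ 4) * F n < tn n} = ∅ := by
      rw [Set.eq_empty_iff_forall_notMem]
      rintro n ⟨⟨hn1, hn2⟩, hsq, ⟨hF1, _⟩, _⟩
      have := F_le_three hn1 hsq
      omega
    rw [hempty, Set.ncard_empty, Nat.cast_zero]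
    positivity
  -- parameters
  set s : ℕ := ⌊y ^ 4⌋₊ with hsdef
  have hy4 : (2 : ℝ) ≤ y ^ 4 := by nlinarith [sq_nonneg (y ^ 2)]
  have hsle : (s : ℝ) ≤ y ^ 4 := Nat.floor_le (by positivity)
  have hslt : y ^ 4 < s + 1 := Nat.lt_floor_add_one _
  have hs2 : y ^ 4 / 2 ≤ s := by linarith
  have hs : 1 ≤ s := by
    have : (1 : ℝ) ≤ s := by linarith
    exact_mod_cast this
  have hs0 : (0 : ℝ) < s := by exact_mod_cast hs
  have hsi : s ≤ 2 ^ i := by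
    have h1 : (s : ℝ) ≤ i := by
      rw [e16]
      exact hsle.trans (pow_le_pow_right₀ hy1 (by norm_num))
    have h2 : s ≤ i := by exact_mod_cast h1
    exact h2.trans Nat.lt_two_pow_self.le
  set k : ℕ := Nat.log 2 i + 9 with hkdef
  have hlog : ((Nat.log 2 i : ℕ) : ℝ) ≤ 32 * y := by
    have h1 : ((Nat.log 2 i : ℕ) : ℝ) * Real.log 2 ≤ Real.log i := by
      have h2 : 2 ^ Nat.log 2 i ≤ i := Nat.pow_log_le_self 2 (by omega)
      have h3 : ((2 : ℝ) ^ Nat.log 2 i) ≤ i := by exact_mod_cast h2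
      have h4 := Real.log_le_log (by positivity) h3
      rwa [Real.log_pow] at h4
    have h2 : Real.log i ≤ (i : ℝ) ^ ((1 : ℝ) / 16) / (1 / 16) := Real.log_le_rpow_div hi0 (by norm_num)
    rw [← hy] at h2
    have h3 : (1 : ℝ) / 2 < Real.log 2 := by
      have := Real.log_two_gt_d9
      linarith
    have h4 : (0 : ℝ) ≤ ((Nat.log 2 i : ℕ) : ℝ) := Nat.cast_nonneg _
    nlinarith
  have hk2 : (k : ℝ) + 2 ≤ 43 * y := by
    rw [hkdef]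
    push_cast
    linarith
  have hy15 : 100 ≤ y ^ 15 := by
    have h1 : y ^ 2 ≤ y ^ 15 := pow_le_pow_right₀ hy1 (by norm_num)
    linarith
  have hki : 2 * (k : ℝ) ≤ i := by
    have h1 : 100 * y ≤ y ^ 15 * y := mul_le_mul_of_nonneg_right hy15 hy0.le
    have h2 : y ^ 15 * y = i := by rw [e16]; ring
    linarith
  have hki' : 2 * k ≤ i := by exact_mod_cast hki
  have hk : k < i := by omega
  have hik : y ^ 16 / 2 ≤ ((i - k : ℕ) : ℝ) := by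
    rw [Nat.cast_sub hk.le, ← e16]
    linarith
  have h2k : 256 * y ^ 16 ≤ (2 : ℝ) ^ k := by
    have h1 : i < 2 ^ (Nat.log 2 i + 1) := Nat.lt_pow_succ_log_self (by norm_num) i
    have h2 : (i : ℝ) ≤ (2 : ℝ) ^ (Nat.log 2 i + 1) := by exact_mod_cast h1.le
    have h3 : (2 : ℝ) ^ k = 256 * (2 : ℝ) ^ (Nat.log 2 i + 1) := by
      rw [hkdef]
      ring
    rw [h3, ← e16]
    linarith
  have hsub : {n | (1 ≤ n ∧ n ≤ N) ∧ ¬ IsSquare n ∧ (2 ^ i < F n ∧ F n ≤ 2 ^ (i + 1)) ∧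
      (1 + 4 / y ^ 4) * F n < tn n} ⊆ {n | (1 ≤ n ∧ n ≤ N) ∧ ¬ IsSquare n ∧ (2 ^ i < F n ∧ F n ≤ 2 ^ (i + 1)) ∧
      (1 + 2 / (s : ℝ)) * F n < tn n} := by
    rintro n ⟨h1, h2, h3, h4⟩
    refine ⟨h1, h2, h3, lt_of_le_of_lt ?_ h4⟩
    refine mul_le_mul_of_nonneg_right ?_ (Nat.cast_nonneg _)
    have h5 : 2 / (s : ℝ) ≤ 4 / y ^ 4 := by
      rw [div_le_div_iff₀ hs0 (by positivity)]
      linarith
    linarith
  have hfin : {n | (1 ≤ n ∧ n ≤ N) ∧ ¬ IsSquare n ∧ (2 ^ i < F n ∧ F n ≤ 2 ^ (i + 1)) ∧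
      (1 + 2 / (s : ℝ)) * F n < tn n}.Finite := (Set.finite_Iic N).subset fun n hn => hn.1.2
  have hcard : ({n | (1 ≤ n ∧ n ≤ N) ∧ ¬ IsSquare n ∧ (2 ^ i < F n ∧ F n ≤ 2 ^ (i + 1)) ∧
      (1 + 4 / y ^ 4) * F n < tn n}.ncard : ℝ) ≤ ({n | (1 ≤ n ∧ n ≤ N) ∧ ¬ IsSquare n ∧
      (2 ^ i < F n ∧ F n ≤ 2 ^ (i + 1)) ∧ (1 + 2 / (s : ℝ)) * F n < tn n}.ncard : ℝ) := by
    exact_mod_cast Set.ncard_le_ncard hsub hfin
  refine hcard.trans ((dyad_explicit N i k s hk hs hsi hN).trans ?_)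
  have hNR : (0 : ℝ) ≤ N := Nat.cast_nonneg N
  have hss : (s : ℝ) ^ 2 ≤ y ^ 8 := by
    calc (s : ℝ) ^ 2 ≤ (y ^ 4) ^ 2 := pow_le_pow_left₀ hs0.le hsle 2
      _ = y ^ 8 := by ring
  have t1 : 60 * (s : ℝ) ^ 2 * N / (2 ^ k * ((i - k : ℕ) : ℝ)) ≤ 1 / 2 * (N / y ^ 20) := by
    calc 60 * (s : ℝ) ^ 2 * N / (2 ^ k * ((i - k : ℕ) : ℝ))
        ≤ 60 * y ^ 8 * N / (256 * y ^ 16 * (y ^ 16 / 2)) := by
          refine div_le_div₀ (by positivity) ?_ (by positivity) ?_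
          · exact mul_le_mul_of_nonneg_right (mul_le_mul_of_nonneg_left hss (by norm_num)) hNR
          · exact mul_le_mul h2k hik (by positivity) (by positivity)
      _ = 15 / 32 * (N / (y ^ 20 * y ^ 4)) := by
          field_simp
          ring
      _ ≤ 1 / 2 * (N / y ^ 20) := by
          refine mul_le_mul (by norm_num) ?_ (by positivity) (by norm_num)
          refine div_le_div_of_nonneg_left hNR (by positivity) ?_
          have : 1 ≤ y ^ 4 := by linarith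
          nlinarith [pow_pos hy0 20]
  have t2 : 40000 * (s : ℝ) ^ 2 * N * ((k : ℝ) + 2) ^ 2 / ((i - k : ℕ) : ℝ) ^ 2 ≤ 1 / 2 * (N / y ^ 20) := by
    calc 40000 * (s : ℝ) ^ 2 * N * ((k : ℝ) + 2) ^ 2 / ((i - k : ℕ) : ℝ) ^ 2
        ≤ 40000 * y ^ 8 * N * (43 * y) ^ 2 / (y ^ 16 / 2) ^ 2 := by
          refine div_le_div₀ (by positivity) ?_ (by positivity) ?_
          · refine mul_le_mul (mul_le_mul_of_nonneg_right (mul_le_mul_of_nonneg_left hss (by norm_num)) hNR)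
              (pow_le_pow_left₀ (by positivity) hk2 2) (by positivity) (by positivity)
          · exact pow_le_pow_left₀ (by positivity) hik 2
      _ = (295840000 / y ^ 2) * (N / y ^ 20) := by
          field_simp
          ring
      _ ≤ 1 / 2 * (N / y ^ 20) := by
          refine mul_le_mul_of_nonneg_right ?_ (by positivity)
          rw [div_le_iff₀ (by positivity)]
          linarith
  calc _ ≤ 1 / 2 * (N / y ^ 20) + 1 / 2 * (N / y ^ 20) := add_le_add t1 t2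
    _ = N / y ^ 20 := by ring

end Pool.Agent.TNA
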