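import Pool.Agent.TNA.Defs

set_option autoImplicit false

/-!
# Basic facts on `Pd`, `F`, and the lower bound `F n ≤ t_n`
-/

namespace Pool.Agent.TNA

open Pool.Agent.TN

theorem le_Pd {n p : ℕ} (h : Odd (n.factorization p)) : p ≤ Pd n := by
  have h0 : n.factorization p ≠ 0 := by
    intro h0
    rw [h0] at h
    exact absurd h (by decide)
  have hmem : p ∈ n.primeFactors := by
    rw [← Nat.support_factorization]
    exact Finsupp.mem_support_iff.mpr h0
  have hf : p ∈ n.primeFactors.filter (fun p => Odd (n.factorization p)) :=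
    Finset.mem_filter.mpr ⟨hmem, h⟩
  exact Finset.le_sup (f := id) hf

theorem Pd_spec {n : ℕ} (hn : 1 ≤ n) (hsq : ¬ IsSquare n) :
    (Pd n).Prime ∧ Odd (n.factorization (Pd n)) := by
  have hne : (n.primeFactors.filter (fun p => Odd (n.factorization p))).Nonempty := by
    by_contra hcon
    rw [Finset.not_nonempty_iff_eq_empty] at hcon
    apply hsq
    apply isSquare_of_even (by omega)
    intro p
    by_contra hp
    rw [Nat.not_even_iff_odd] at hp
    have h0 : n.factorization p ≠ 0 := by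
      intro h0
      rw [h0] at hp
      exact absurd hp (by decide)
    have hmem : p ∈ n.primeFactors := by
      rw [← Nat.support_factorization]
      exact Finsupp.mem_support_iff.mpr h0
    have hf : p ∈ n.primeFactors.filter (fun p => Odd (n.factorization p)) :=
      Finset.mem_filter.mpr ⟨hmem, hp⟩
    rw [hcon] at hf
    exact absurd hf (Finset.notMem_empty _)
  obtain ⟨q, hq, hq2⟩ := Finset.exists_mem_eq_sup _ hne id
  have e : Pd n = q := hq2
  rw [e]
  rw [Finset.mem_filter] at hq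
  exact ⟨Nat.prime_of_mem_primeFactors hq.1, hq.2⟩

theorem Pd_le {n : ℕ} (hn : 1 ≤ n) : Pd n ≤ n := by
  apply Finset.sup_le
  intro p hp
  rw [Finset.mem_filter] at hp
  exact Nat.le_of_dvd (by omega) (Nat.dvd_of_mem_primeFactors hp.1)

theorem Pd_four_mul {n : ℕ} (hn : 1 ≤ n) (p : ℕ) :
    Odd ((4 * n).factorization p) ↔ Odd (n.factorization p) := by
  rw [Nat.factorization_mul (by norm_num) (by omega)]
  rw [Finsupp.add_apply, Nat.odd_add]
  have h4 : Even ((4 : ℕ).factorization p) := by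
    have : (4 : ℕ) = 2 ^ 2 := by norm_num
    rw [this, Nat.factorization_pow]
    rw [Finsupp.smul_apply, smul_eq_mul]
    exact even_two_mul _
  constructor
  · intro h
    by_contra hcon
    rw [Nat.not_odd_iff_even] at hcon
    exact (Nat.not_odd_iff_even.mpr h4) (h.mpr hcon)
  · intro h
    constructor
    · intro h1
      exact absurd h1 (Nat.not_odd_iff_even.mpr h4)
    · intro h1
      exact absurd h (Nat.not_odd_iff_even.mpr h1)

theorem F_set_nonempty {n : ℕ} (hn : 1 ≤ n) (hsq : ¬ IsSquare n) :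
    3 * n ∈ {t : ℕ | ∃ a, n < a ∧ a ≤ n + t ∧ Odd (a.factorization (Pd n)) ∧ Pd a ≤ t} := by
  refine ⟨4 * n, by omega, by omega, ?_, ?_⟩
  · rw [Pd_four_mul hn]
    exact (Pd_spec hn hsq).2
  · apply Finset.sup_le
    intro p hp
    rw [Finset.mem_filter] at hp
    have h1 := (Pd_four_mul hn p).mp hp.2
    have h2 := le_Pd h1
    have h3 := Pd_le hn
    show p ≤ 3 * n
    omega

theorem F_spec {n : ℕ} (hn : 1 ≤ n) (hsq : ¬ IsSquare n) :
    ∃ a, n < a ∧ a ≤ n + F n ∧ Odd (a.factorization (Pd n)) ∧ Pd a ≤ F n :=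
  Nat.sInf_mem ⟨_, F_set_nonempty hn hsq⟩

theorem F_le {n t a : ℕ} (h1 : n < a) (h2 : a ≤ n + t) (h3 : Odd (a.factorization (Pd n)))
    (h4 : Pd a ≤ t) : F n ≤ t :=
  Nat.sInf_le ⟨a, h1, h2, h3, h4⟩

theorem F_le_three {n : ℕ} (hn : 1 ≤ n) (hsq : ¬ IsSquare n) : F n ≤ 3 * n :=
  Nat.sInf_le (F_set_nonempty hn hsq)

theorem Pd_le_F {n : ℕ} (hn : 1 ≤ n) (hsq : ¬ IsSquare n) : Pd n ≤ F n := by
  obtain ⟨a, -, -, h3, h4⟩ := F_spec hn hsq
  exact (le_Pd h3).trans h4

theorem F_le_tn {n : ℕ} (hn : 1 ≤ n) (hsq : ¬ IsSquare n) : F n ≤ tn n := by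
  obtain ⟨-, S, hS, hSsub, hsquare⟩ := tn_spec hn
  obtain ⟨hp, hodd⟩ := Pd_spec hn hsq
  have hpos : ∀ a ∈ S, a ≠ 0 := by
    intro a ha
    have := Finset.mem_Icc.mp (hSsub ha)
    omega
  have hev : ∀ q : ℕ, Even (n.factorization q + ∑ a ∈ S, a.factorization q) := by
    intro q
    obtain ⟨r, hr⟩ := hsquare
    have hprod : ∏ a ∈ S, a ≠ 0 := Finset.prod_ne_zero_iff.mpr hpos
    have h1 : (n * ∏ a ∈ S, a).factorization q = n.factorization q +
        ∑ a ∈ S, a.factorization q := by
      rw [Nat.factorization_mul (by omega) hprod, Finsupp.add_apply,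
        Nat.factorization_prod hpos, Finsupp.finset_sum_apply]
    rw [← h1, hr]
    by_cases hr0 : r = 0
    · subst hr0
      simp
    · rw [Nat.factorization_mul hr0 hr0, Finsupp.add_apply]
      exact ⟨_, rfl⟩
  -- an element of odd exponent at `Pd n`
  obtain ⟨a, haS, hao⟩ : ∃ a ∈ S, Odd (a.factorization (Pd n)) := by
    by_contra hcon
    push Not at hcon
    have h1 := hev (Pd n)
    have h2 : Even (∑ a ∈ S, a.factorization (Pd n)) :=
      Finset.even_sum _ fun a ha => Nat.not_odd_iff_even.mp (hcon a ha)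
    rw [Nat.even_add] at h1
    exact (Nat.not_even_iff_odd.mpr hodd) (h1.mpr h2)
  have ha := Finset.mem_Icc.mp (hSsub haS)
  refine F_le (a := a) (by omega) (by omega) hao ?_
  apply Finset.sup_le
  intro q hq
  rw [Finset.mem_filter] at hq
  show q ≤ tn n
  by_contra hlt
  push Not at hlt
  have hqp : q.Prime := Nat.prime_of_mem_primeFactors hq.1
  have hqa : q ∣ a := Nat.dvd_of_mem_primeFactors hq.1
  have hzero : ∀ b, n ≤ b → b ≤ n + tn n → b ≠ a → b.factorization q = 0 := by
    intro b hb1 hb2 hba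
    apply Nat.factorization_eq_zero_of_not_dvd
    intro hqb
    rcases lt_or_gt_of_ne hba with h | h
    · have h1 : q ∣ a - b := Nat.dvd_sub hqa hqb
      have h2 := Nat.le_of_dvd (by omega) h1
      omega
    · have h1 : q ∣ b - a := Nat.dvd_sub hqb hqa
      have h2 := Nat.le_of_dvd (by omega) h1
      omega
  have h1 := hev q
  rw [hzero n le_rfl (by omega) (by omega), zero_add, Finset.sum_eq_single a] at h1
  · exact (Nat.not_even_iff_odd.mpr hq.2) h1
  · intro b hb hba
    have := Finset.mem_Icc.mp (hSsub hb)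
    exact hzero b (by omega) (by omega) hba
  · intro h
    exact absurd haS h

end Pool.Agent.TNA
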