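import Pool.Agent.TNA.Low
import Pool.Agent.TNX.Big
import Pool.Agent.TNX.Good

set_option autoImplicit false

/-!
# `F n = k(n) P(n)` under the hypotheses of `TNX.good`
-/

namespace Pool.Agent.TNA

open Pool.Agent.TN Pool.Agent.TNX

/-- a nonsquare `n` whose largest prime has exponent one -/
theorem eqa_Pd {n : ℕ} (hn : 2 ≤ n) (h1 : n.factorization (P n) = 1) :
    Pd n = P n ∧ ¬ IsSquare n := by
  constructor
  · apply le_antisymm
    · apply Finset.sup_le
      intro p hp
      rw [Finset.mem_filter] at hp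
      exact le_P hp.1
    · exact le_Pd (by rw [h1]; exact odd_one)
  · rintro ⟨r, hr⟩
    have hr0 : r ≠ 0 := by
      rintro rfl
      omega
    have h2 : n.factorization (P n) = r.factorization (P n) + r.factorization (P n) := by
      conv_lhs => rw [hr]
      rw [Nat.factorization_mul hr0 hr0, Finsupp.add_apply]
      conv_lhs => rw [← hr]
    omega

theorem eqa_one {n : ℕ} (hn : 2 ≤ n) (h2 : ¬ P n ^ 2 ∣ n) : n.factorization (P n) = 1 := by
  have hp := P_prime hn
  have h1 : 1 ≤ n.factorization (P n) := (hp.dvd_iff_one_le_factorization (by omega)).mp (P_dvd hn)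
  by_contra hne
  have h3 : 2 ≤ n.factorization (P n) := by omega
  exact h2 ((hp.pow_dvd_iff_le_factorization (by omega)).mpr h3)

theorem eqa_big {n : ℕ} (hn : 64 ≤ n) (h : 16 * n < P n ^ 2) (hk : kk n = 1) :
    F n = kk n * P n := by
  have h2 : 2 ≤ n := by omega
  have hnd : ¬ P n ^ 2 ∣ n := by
    intro hd
    have := Nat.le_of_dvd (by omega) hd
    omega
  obtain ⟨hP, hsq⟩ := eqa_Pd h2 (eqa_one h2 hnd)
  have h3 := F_le_tn (show 1 ≤ n by omega) hsq
  rw [big hn h] at h3
  have h4 := Pd_le_F (show 1 ≤ n by omega) hsq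
  rw [hP] at h4
  rw [hk, one_mul] at h3 ⊢
  omega

theorem eqa_good {N j d K h n : ℕ} (hd : 2 * d ≤ j) (hR : Rg N j n) (hK : kk n ≤ K) (hh : K ≤ 2 ^ h)
    (hsq : ∀ k, 1 ≤ k → k ≤ K → ∀ q, P n < q → ¬ q ^ 2 ∣ n / P n + k)
    (hfar : ∀ k, 1 ≤ k → k ≤ K → ∀ q, q.Prime → P n < q → q ≤ 2 ^ h * P n → ¬ q ∣ n / P n + k)
    (hnear : ∀ k, k ≤ K → ∀ r, r.Prime → 2 ^ (j - d) < r → r ≤ 2 ^ (j + 1) → ¬ r ∣ n / P n + k)
    (htn : tn n = kk n * P n) : F n = kk n * P n := by
  have hn2 := hR.two_le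
  have hp := hR.prime
  have hmn := hR.mul_div
  have hlt1 := hR.2.1
  have hlt2 := hR.2.2
  have hpd : 2 ^ (j - d) < P n :=
    lt_of_le_of_lt (Nat.pow_le_pow_right (by norm_num) (by omega)) hlt1
  have hnd0 : ¬ P n ∣ n / P n := by
    have := hnear 0 (by omega) (P n) hp hpd hlt2
    rwa [add_zero] at this
  have hnd : ¬ P n ^ 2 ∣ n := by
    intro h2
    rw [pow_two] at h2
    apply hnd0
    apply Nat.dvd_of_mul_dvd_mul_left hp.pos
    rw [hmn]
    exact h2
  obtain ⟨hP, hnsq⟩ := eqa_Pd hn2 (eqa_one hn2 hnd)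
  have hn1 : 1 ≤ n := by omega
  have hup := F_le_tn hn1 hnsq
  rw [htn] at hup
  refine le_antisymm hup ?_
  by_contra hlt
  rw [not_le] at hlt
  obtain ⟨a, ha1, ha2, ha3, ha4⟩ := F_spec hn1 hnsq
  rw [hP] at ha3
  have ha0 : a ≠ 0 := by omega
  have hpa : P n ∣ a := by
    by_contra hcon
    rw [Nat.factorization_eq_zero_of_not_dvd hcon] at ha3
    exact absurd ha3 (by decide)
  obtain ⟨b, hb⟩ := hpa
  have hb1 : n / P n < b := by
    rw [← hmn, hb] at ha1
    exact Nat.lt_of_mul_lt_mul_left ha1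
  obtain ⟨i, hi⟩ : ∃ i, b = n / P n + i := ⟨b - n / P n, by omega⟩
  have hi1 : 1 ≤ i := by omega
  have hik : i < kk n := by
    have h1 : P n * (n / P n + i) ≤ n + F n := by rw [← hi, ← hb]; exact ha2
    rw [mul_add, hmn] at h1
    have h2 : P n * i < P n * kk n := by
      rw [mul_comm (P n) (kk n)]
      omega
    exact Nat.lt_of_mul_lt_mul_left h2
  have hq1 := lt_of_lt_kk hi1 hik
  have hm1 : 1 ≤ n / P n := by
    rcases Nat.eq_zero_or_pos (n / P n) with e | e
    · rw [e, mul_zero] at hmn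
      omega
    · exact e
  have h2' : 2 ≤ n / P n + i := by omega
  have hqp := P_prime h2'
  have hqd := P_dvd h2'
  have hqsq := hsq i hi1 (by omega) _ hq1
  have hqbig : kk n * P n < P (n / P n + i) := by
    by_contra hcon
    rw [not_lt] at hcon
    refine hfar i hi1 (by omega) _ hqp hq1 ?_ hqd
    calc P (n / P n + i) ≤ kk n * P n := hcon
      _ ≤ 2 ^ h * P n := Nat.mul_le_mul_right _ (hK.trans hh)
  have hfq : (n / P n + i).factorization (P (n / P n + i)) = 1 := eqa_one h2' hqsq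
  have hfa : a.factorization (P (n / P n + i)) = 1 := by
    rw [hb, hi, Nat.factorization_mul hp.ne_zero (by omega), Finsupp.add_apply, hfq]
    have : (P n).factorization (P (n / P n + i)) = 0 := by
      apply Nat.factorization_eq_zero_of_not_dvd
      intro hdv
      have := Nat.le_of_dvd hp.pos hdv
      omega
    rw [this, zero_add]
  have h5 : P (n / P n + i) ≤ Pd a := le_Pd (by rw [hfa]; exact odd_one)
  omega

end Pool.Agent.TNA
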