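import Pool.Agent.TNA.EqA
import Pool.Agent.TNX.Fin

set_option autoImplicit false

/-!
# `t_n = F(n) = k(n) P(n)` for almost all `n` (adapted from `TNX/Fin`, helper47)
-/

namespace Pool.Agent.TNA

open Pool.Agent.TN Pool.Agent.TNX Finset

theorem main_eq {ε : ℝ} (hε : 0 < ε) : ∃ K N0 : ℕ, ∀ N : ℕ, N0 ≤ N →
    ({n | (1 ≤ n ∧ n ≤ N) ∧ ¬ ((tn n = kk n * P n ∧ F n = kk n * P n) ∧ kk n ≤ K)}.ncard : ℝ) ≤ ε * N := by
  classical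
  obtain ⟨e, he⟩ : ∃ e : ℝ, e = ε / 10 := ⟨_, rfl⟩
  have he0 : 0 < e := by rw [he]; positivity
  obtain ⟨η, hη, hη4, J1, h1⟩ := reg_smooth he0
  obtain ⟨J2, h2⟩ := reg_mid he0
  obtain ⟨K, hK1, J3, h3⟩ := reg_kk hη he0
  obtain ⟨J4, h4⟩ := reg_sq hη he0 K
  obtain ⟨δ1, hδ1, J5, h5⟩ := reg_near hη he0 K
  obtain ⟨J6, h6⟩ := reg_far hη he0 K K
  obtain ⟨δm, hδm⟩ : ∃ x : ℝ, x = min δ1 (min (η / 8) (1 / 8)) := ⟨_, rfl⟩
  have hδm0 : 0 < δm := by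
    rw [hδm]
    exact lt_min hδ1 (lt_min (by positivity) (by norm_num))
  have hm1 : δm ≤ δ1 := by rw [hδm]; exact min_le_left _ _
  have hm2 : δm ≤ η / 8 := by rw [hδm]; exact (min_le_right _ _).trans (min_le_left _ _)
  have hm3 : δm ≤ 1 / 8 := by rw [hδm]; exact (min_le_right _ _).trans (min_le_right _ _)
  have hδ : 0 < δm / 2 := by positivity
  obtain ⟨J7, h7⟩ := reg_right hδ he0
  obtain ⟨J8, h8⟩ := reg_left hδ he0 K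
  obtain ⟨J9, h9⟩ := reg_exc hη hδ he0 K
  obtain ⟨J10, h10⟩ := exists_nat_ge (2 / δm)
  obtain ⟨J11, h11⟩ := exists_nat_ge (64 / e)
  refine ⟨K, 2 ^ (J1 + J2 + J3 + J4 + J5 + J6 + J7 + J8 + J9 + J10 + J11 + 1), fun N hN => ?_⟩
  have hN0 : N ≠ 0 := by
    have : 0 < 2 ^ (J1 + J2 + J3 + J4 + J5 + J6 + J7 + J8 + J9 + J10 + J11 + 1) := by positivity
    omega
  obtain ⟨J, hJ⟩ : ∃ J : ℕ, J = Nat.log 2 N := ⟨_, rfl⟩
  have hJM : J1 + J2 + J3 + J4 + J5 + J6 + J7 + J8 + J9 + J10 + J11 + 1 ≤ J := by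
    rw [hJ]
    exact Nat.le_log_of_pow_le (by norm_num) hN
  have hNJ : 2 ^ J ≤ N := by rw [hJ]; exact Nat.pow_log_le_self 2 hN0
  have hNJ' : N < 2 ^ (J + 1) := by rw [hJ]; exact Nat.lt_pow_succ_log_self (by norm_num) N
  have hJr10 : 2 / δm ≤ J := h10.trans (by exact_mod_cast (by omega : J10 ≤ J))
  have hJr11 : 64 / e ≤ J := h11.trans (by exact_mod_cast (by omega : J11 ≤ J))
  have hJN : (J : ℝ) ≤ N := by
    have : J < 2 ^ J := Nat.lt_two_pow_self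
    exact_mod_cast (this.le.trans hNJ)
  -- the parameter `d`
  obtain ⟨d, hd⟩ : ∃ d : ℕ, d = ⌈δm / 2 * J⌉₊ := ⟨_, rfl⟩
  have hd1 : δm / 2 * J ≤ d := by rw [hd]; exact Nat.le_ceil _
  have hd2 : (d : ℝ) ≤ δm * J := by
    have h := Nat.ceil_lt_add_one (show 0 ≤ δm / 2 * J by positivity)
    rw [← hd] at h
    have h' : 1 ≤ δm / 2 * J := by
      rw [div_le_iff₀ hδm0] at hJr10
      linarith
    linarith
  have hJ0 : (0 : ℝ) ≤ J := Nat.cast_nonneg J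
  have hd3 : (d : ℝ) ≤ δ1 * J := hd2.trans (mul_le_mul_of_nonneg_right hm1 hJ0)
  have hd4 : 8 * (d : ℝ) ≤ η * J := by
    have := mul_le_mul_of_nonneg_right hm2 hJ0
    linarith
  have hd5 : 4 * d ≤ J := by
    have := mul_le_mul_of_nonneg_right hm3 hJ0
    have h' : 4 * (d : ℝ) ≤ J := by linarith
    exact_mod_cast h'
  -- the sets
  obtain ⟨a, ha⟩ : ∃ a : ℕ, a = ⌈η * J⌉₊ := ⟨_, rfl⟩
  have ha1 : η * J ≤ a := by rw [ha]; exact Nat.le_ceil _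
  have g1 := h1 J (by omega) N hNJ hNJ'
  have g2 := h2 J (by omega) N hNJ hNJ'
  have g3 := h3 J (by omega) N hNJ hNJ'
  have g4 := h4 J (by omega) N hNJ hNJ'
  have g5 := h5 J (by omega) N hNJ hNJ' d hd3
  have g6 := h6 J (by omega) N hNJ hNJ'
  have g7 := h7 J (by omega) N hNJ hNJ' d hd1
  have g8 := h8 J (by omega) N hNJ hNJ' d hd1 hd5 a
  have g9 := h9 J (by omega) N hNJ hNJ' d hd1 hd4
  rw [← ha] at g1 g3 g4 g5 g6 g9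
  have g0 : (({n | n < 64} : Set ℕ).ncard : ℝ) ≤ e * N := by
    have : ({n | n < 64} : Set ℕ) = ((Finset.range 64 : Finset ℕ) : Set ℕ) := by
      ext n; simp
    rw [this, Set.ncard_coe_finset, Finset.card_range]
    rw [div_le_iff₀ he0] at hJr11
    push_cast
    calc (64 : ℝ) ≤ J * e := hJr11
      _ ≤ N * e := mul_le_mul_of_nonneg_right hJN he0.le
      _ = e * N := mul_comm _ _
  obtain ⟨S1, hS1⟩ : ∃ S : Set ℕ, S = {n | (1 ≤ n ∧ n ≤ N) ∧ P n ≤ 2 ^ a} := ⟨_, rfl⟩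
  obtain ⟨S2, hS2⟩ : ∃ S : Set ℕ, S = {n | (1 ≤ n ∧ n ≤ N) ∧ 2 ^ (J / 2) < P n ∧
    P n ^ 2 ≤ 16 * n} := ⟨_, rfl⟩
  obtain ⟨S3, hS3⟩ : ∃ S : Set ℕ, S = {n | ∃ j ∈ Ico a (J / 2), Rg N j n ∧ K < kk n} := ⟨_, rfl⟩
  obtain ⟨S4, hS4⟩ : ∃ S : Set ℕ, S = {n | ∃ j ∈ Ico a (J / 2), Rg N j n ∧ ∃ k, 1 ≤ k ∧ k ≤ K ∧
    ∃ q, P n < q ∧ q ^ 2 ∣ n / P n + k} := ⟨_, rfl⟩
  obtain ⟨S5, hS5⟩ : ∃ S : Set ℕ, S = {n | ∃ j ∈ Ico a (J / 2), Rg N j n ∧ ∃ k, k ≤ K ∧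
    ∃ r, r.Prime ∧ 2 ^ (j - d) < r ∧ r ≤ 2 ^ (j + 1) ∧ r ∣ n / P n + k} := ⟨_, rfl⟩
  obtain ⟨S6, hS6⟩ : ∃ S : Set ℕ, S = {n | ∃ j ∈ Ico a (J / 2), Rg N j n ∧ ∃ k, 1 ≤ k ∧ k ≤ K ∧
    ∃ q, q.Prime ∧ P n < q ∧ q ≤ 2 ^ K * P n ∧ q ∣ n / P n + k} := ⟨_, rfl⟩
  obtain ⟨S7, hS7⟩ : ∃ S : Set ℕ, S = {n | (1 ≤ n ∧ n ≤ N) ∧ ∃ r, 1 ≤ r ∧ r ≤ 2 ^ (J / 2) ∧
    r ∣ n ∧ n / r ∈ GR d} := ⟨_, rfl⟩
  obtain ⟨S8, hS8⟩ : ∃ S : Set ℕ, S = {n | ∃ j ∈ Ico a (J / 2), Rg N j n ∧ ∃ k, 1 ≤ k ∧ k ≤ K ∧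
    ∃ r, 1 ≤ r ∧ r ≤ 2 ^ (J / 2) ∧ r ∣ n + k * P n ∧ (n + k * P n) / r ∈ GLf d} := ⟨_, rfl⟩
  obtain ⟨S9, hS9⟩ : ∃ S : Set ℕ, S = {n | ∃ j ∈ Ico a (J / 2), Rg N j n ∧ ∃ k, 1 ≤ k ∧ k ≤ K ∧
    Exc (2 ^ d) n (n + k * P n)} := ⟨_, rfl⟩
  rw [← hS1] at g1
  rw [← hS2] at g2
  rw [← hS3] at g3
  rw [← hS4] at g4
  rw [← hS5] at g5
  rw [← hS6] at g6
  rw [← hS7] at g7
  rw [← hS8] at g8
  rw [← hS9] at g9
  obtain ⟨S0, hS0⟩ : ∃ S : Set ℕ, S = {n | n < 64} := ⟨_, rfl⟩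
  rw [← hS0] at g0
  have hsub : {n | (1 ≤ n ∧ n ≤ N) ∧ ¬ ((tn n = kk n * P n ∧ F n = kk n * P n) ∧ kk n ≤ K)} ⊆
      S0 ∪ (S1 ∪ (S2 ∪ (S3 ∪ (S4 ∪ (S5 ∪ (S6 ∪ (S7 ∪ (S8 ∪ S9)))))))) := by
    rintro n ⟨⟨hn1, hnN⟩, hne⟩
    by_contra hnot
    simp only [Set.mem_union, not_or] at hnot
    obtain ⟨n0, n1, n2, n3, n4, n5, n6, n7, n8, n9⟩ := hnot
    rw [hS0, Set.mem_ofPred_eq, not_lt] at n0
    rw [hS1, Set.mem_ofPred_eq, not_and, not_le] at n1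
    have hP1 := n1 ⟨hn1, hnN⟩
    rw [hS2, Set.mem_ofPred_eq, not_and, not_and, not_le] at n2
    rcases lt_or_ge (2 ^ (J / 2)) (P n) with hbig | hsmall
    · have hb := n2 ⟨hn1, hnN⟩ hbig
      exact hne ⟨⟨big n0 hb, eqa_big n0 hb (kk_big n0 hb)⟩, by rw [kk_big n0 hb]; exact hK1⟩
    · obtain ⟨j, hj, hj1, hj2⟩ := fin_range hP1 hsmall
      have hR : Rg N j n := ⟨⟨hn1, hnN⟩, hj1, hj2⟩
      have hja := (Finset.mem_Ico.1 hj).1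
      have hjJ := (Finset.mem_Ico.1 hj).2
      have h2d : 2 * d ≤ j := by
        have h' : (a : ℝ) ≤ j := by exact_mod_cast hja
        have h'' : 2 * (d : ℝ) ≤ j := by
          have : (0 : ℝ) ≤ d := Nat.cast_nonneg d
          linarith
        exact_mod_cast h''
      have hkK : kk n ≤ K := by
        by_contra hlt
        exact n3 (by rw [hS3]; exact ⟨j, hj, hR, not_le.1 hlt⟩)
      have hk1 : 1 ≤ kk n := (kk_spec hR.two_le).1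
      have hrJ : ∀ r : ℕ, r ≤ 2 ^ (j - d) → r ≤ 2 ^ (J / 2) := fun r hr =>
        hr.trans (Nat.pow_le_pow_right (by norm_num) (by omega))
      rcases good (h := K) h2d hR hkK Nat.lt_two_pow_self.le
        (fun k hk1 hk2 q hq hqd => n4 (by rw [hS4]; exact ⟨j, hj, hR, k, hk1, hk2, q, hq, hqd⟩))
        (fun k hk1 hk2 q hqp hq1 hq2 hqd => n6 (by
          rw [hS6]; exact ⟨j, hj, hR, k, hk1, hk2, q, hqp, hq1, hq2, hqd⟩))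
        (fun k hk r hrp hr1 hr2 hrd => n5 (by
          rw [hS5]; exact ⟨j, hj, hR, k, hk, r, hrp, hr1, hr2, hrd⟩))
        (fun r hr1 hr2 hrd hG => n7 (by
          rw [hS7]; exact ⟨⟨hn1, hnN⟩, r, hr1, hrJ r hr2, hrd, hG⟩))
        (fun r hr1 hr2 hrd hG => n8 (by
          rw [hS8]; exact ⟨j, hj, hR, kk n, hk1, hkK, r, hr1, hrJ r hr2, hrd, hG⟩)) with h | h
      · have hF := eqa_good (h := K) h2d hR hkK Nat.lt_two_pow_self.le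
          (fun k hk1 hk2 q hq hqd => n4 (by rw [hS4]; exact ⟨j, hj, hR, k, hk1, hk2, q, hq, hqd⟩))
          (fun k hk1 hk2 q hqp hq1 hq2 hqd => n6 (by
            rw [hS6]; exact ⟨j, hj, hR, k, hk1, hk2, q, hqp, hq1, hq2, hqd⟩))
          (fun k hk r hrp hr1 hr2 hrd => n5 (by
            rw [hS5]; exact ⟨j, hj, hR, k, hk, r, hrp, hr1, hr2, hrd⟩)) h
        exact hne ⟨⟨h, hF⟩, hkK⟩
      · exact n9 (by rw [hS9]; exact ⟨j, hj, hR, kk n, hk1, hkK, h⟩)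
  have hfin : (S0 ∪ (S1 ∪ (S2 ∪ (S3 ∪ (S4 ∪ (S5 ∪ (S6 ∪ (S7 ∪ (S8 ∪ S9))))))))).Finite := by
    apply (Set.finite_Iic (N + 64)).subset
    intro n hn
    rw [Set.mem_Iic]
    rw [hS0, hS1, hS2, hS3, hS4, hS5, hS6, hS7, hS8, hS9] at hn
    rcases hn with h | h | h | h | h | h | h | h | h | h
    · have : n < 64 := h
      omega
    · have := h.1.2
      omega
    · have := h.1.2
      omega
    · obtain ⟨j, _, hR, _⟩ := h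
      have := hR.1.2
      omega
    · obtain ⟨j, _, hR, _⟩ := h
      have := hR.1.2
      omega
    · obtain ⟨j, _, hR, _⟩ := h
      have := hR.1.2
      omega
    · obtain ⟨j, _, hR, _⟩ := h
      have := hR.1.2
      omega
    · have := h.1.2
      omega
    · obtain ⟨j, _, hR, _⟩ := h
      have := hR.1.2
      omega
    · obtain ⟨j, _, hR, _⟩ := h
      have := hR.1.2
      omega
  have hcard : {n | (1 ≤ n ∧ n ≤ N) ∧ ¬ ((tn n = kk n * P n ∧ F n = kk n * P n) ∧ kk n ≤ K)}.ncard ≤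
      S0.ncard + (S1.ncard + (S2.ncard + (S3.ncard + (S4.ncard + (S5.ncard + (S6.ncard +
        (S7.ncard + (S8.ncard + S9.ncard)))))))) := by
    refine (Set.ncard_le_ncard hsub hfin).trans ?_
    refine (Set.ncard_union_le _ _).trans (Nat.add_le_add_left ?_ _)
    refine (Set.ncard_union_le _ _).trans (Nat.add_le_add_left ?_ _)
    refine (Set.ncard_union_le _ _).trans (Nat.add_le_add_left ?_ _)
    refine (Set.ncard_union_le _ _).trans (Nat.add_le_add_left ?_ _)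
    refine (Set.ncard_union_le _ _).trans (Nat.add_le_add_left ?_ _)
    refine (Set.ncard_union_le _ _).trans (Nat.add_le_add_left ?_ _)
    refine (Set.ncard_union_le _ _).trans (Nat.add_le_add_left ?_ _)
    refine (Set.ncard_union_le _ _).trans (Nat.add_le_add_left ?_ _)
    exact Set.ncard_union_le _ _
  have hcardr : ({n | (1 ≤ n ∧ n ≤ N) ∧ ¬ ((tn n = kk n * P n ∧ F n = kk n * P n) ∧ kk n ≤ K)}.ncard : ℝ) ≤
      S0.ncard + (S1.ncard + (S2.ncard + (S3.ncard + (S4.ncard + (S5.ncard + (S6.ncard +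
        (S7.ncard + (S8.ncard + S9.ncard)))))))) := by exact_mod_cast hcard
  have hεe : ε * N = 10 * (e * N) := by rw [he]; ring
  rw [hεe]
  linarith

end Pool.Agent.TNA
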