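import Pool.Agent.TNA.EqA
import Pool.Agent.TNX.ScFin

set_option autoImplicit false

/-!
# `t_n = F(n) = k(n) P(n)` for almost all `n` of every scale (adapted from `TNX/ScFin`, helper47)
-/

namespace Pool.Agent.TNA

open Pool.Agent.TN Pool.Agent.TNX Finset

theorem sc_main_eq {η ε : ℝ} (hη : 0 < η) (hε : 0 < ε) : ∃ K : ℕ, 1 ≤ K ∧ ∃ J0 : ℕ, ∀ J : ℕ, J0 ≤ J →
    ∀ N : ℕ, 2 ^ J ≤ N → N < 2 ^ (J + 1) → ∀ j : ℕ, η * J ≤ j → j ≤ J / 2 + 5 →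
      ({n | Rg N j n ∧ ¬ ((tn n = kk n * P n ∧ F n = kk n * P n) ∧ kk n ≤ K)}.ncard : ℝ) ≤ ε * (N / J) := by
  classical
  obtain ⟨e, he⟩ : ∃ e : ℝ, e = ε / 7 := ⟨_, rfl⟩
  have he0 : 0 < e := by rw [he]; positivity
  obtain ⟨K, hK1, J3, h3⟩ := sc_kk hη he0
  obtain ⟨J4, h4⟩ := sc_sq hη he0 K
  obtain ⟨δ1, hδ1, J5, h5⟩ := sc_near hη he0 K
  obtain ⟨J6, h6⟩ := sc_far hη he0 K K
  obtain ⟨δm, hδm⟩ : ∃ x : ℝ, x = min δ1 (min (η / 8) (1 / 8)) := ⟨_, rfl⟩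
  have hδm0 : 0 < δm := by
    rw [hδm]
    exact lt_min hδ1 (lt_min (by positivity) (by norm_num))
  have hm1 : δm ≤ δ1 := by rw [hδm]; exact min_le_left _ _
  have hm2 : δm ≤ η / 8 := by rw [hδm]; exact (min_le_right _ _).trans (min_le_left _ _)
  have hm3 : δm ≤ 1 / 8 := by rw [hδm]; exact (min_le_right _ _).trans (min_le_right _ _)
  have hδ : 0 < δm / 2 := by positivity
  obtain ⟨J7, h7⟩ := sc_right hδ he0
  obtain ⟨J8, h8⟩ := sc_left hδ he0 K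
  obtain ⟨J9, h9⟩ := sc_exc hη hδ he0 K
  obtain ⟨J10, h10⟩ := exists_nat_ge (10 / δm)
  refine ⟨K, hK1, J3 + J4 + J5 + J6 + J7 + J8 + J9 + J10 + 1, fun J hJM N hNJ hNJ' j hj1 hj2 => ?_⟩
  have hJr10 : 10 / δm ≤ J := h10.trans (by exact_mod_cast (by omega : J10 ≤ J))
  -- the parameter `d`
  obtain ⟨d, hd⟩ : ∃ d : ℕ, d = ⌈δm / 2 * J⌉₊ := ⟨_, rfl⟩
  have hd1 : δm / 2 * J ≤ d := by rw [hd]; exact Nat.le_ceil _
  have h' : 5 ≤ δm / 2 * J := by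
    rw [div_le_iff₀ hδm0] at hJr10
    linarith
  have hd0 : 5 ≤ d := by
    have : (5 : ℝ) ≤ d := h'.trans hd1
    exact_mod_cast this
  have hd2 : (d : ℝ) ≤ δm * J := by
    have h := Nat.ceil_lt_add_one (show 0 ≤ δm / 2 * J by positivity)
    rw [← hd] at h
    linarith
  have hJ0 : (0 : ℝ) ≤ J := Nat.cast_nonneg J
  have hd3 : (d : ℝ) ≤ δ1 * J := hd2.trans (mul_le_mul_of_nonneg_right hm1 hJ0)
  have hd4 : 8 * (d : ℝ) ≤ η * J := by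
    have := mul_le_mul_of_nonneg_right hm2 hJ0
    linarith
  have hd5 : 4 * d ≤ J := by
    have := mul_le_mul_of_nonneg_right hm3 hJ0
    have h' : 4 * (d : ℝ) ≤ J := by linarith
    exact_mod_cast h'
  -- the sets
  have g3 := h3 J (by omega) N hNJ hNJ' j hj1 hj2
  have g4 := h4 J (by omega) N hNJ hNJ' j hj1 hj2
  have g5 := h5 J (by omega) N hNJ hNJ' d hd3 j hj1 hj2
  have g6 := h6 J (by omega) N hNJ hNJ' j hj1 hj2
  have g7 := h7 J (by omega) N hNJ hNJ' d hd1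
  have g8 := h8 J (by omega) N hNJ hNJ' d hd1 hd5 j hj2
  have g9 := h9 J (by omega) N hNJ hNJ' d hd1 hd4 j hj1 hj2
  obtain ⟨S3, hS3⟩ : ∃ S : Set ℕ, S = {n | Rg N j n ∧ K < kk n} := ⟨_, rfl⟩
  obtain ⟨S4, hS4⟩ : ∃ S : Set ℕ, S = {n | Rg N j n ∧ ∃ k, 1 ≤ k ∧ k ≤ K ∧
    ∃ q, P n < q ∧ q ^ 2 ∣ n / P n + k} := ⟨_, rfl⟩
  obtain ⟨S5, hS5⟩ : ∃ S : Set ℕ, S = {n | Rg N j n ∧ ∃ k, k ≤ K ∧
    ∃ r, r.Prime ∧ 2 ^ (j - d) < r ∧ r ≤ 2 ^ (j + 1) ∧ r ∣ n / P n + k} := ⟨_, rfl⟩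
  obtain ⟨S6, hS6⟩ : ∃ S : Set ℕ, S = {n | Rg N j n ∧ ∃ k, 1 ≤ k ∧ k ≤ K ∧
    ∃ q, q.Prime ∧ P n < q ∧ q ≤ 2 ^ K * P n ∧ q ∣ n / P n + k} := ⟨_, rfl⟩
  obtain ⟨S7, hS7⟩ : ∃ S : Set ℕ, S = {n | (1 ≤ n ∧ n ≤ N) ∧ ∃ r, 1 ≤ r ∧ r ≤ 2 ^ (J / 2) ∧
    r ∣ n ∧ n / r ∈ GR d} := ⟨_, rfl⟩
  obtain ⟨S8, hS8⟩ : ∃ S : Set ℕ, S = {n | Rg N j n ∧ ∃ k, 1 ≤ k ∧ k ≤ K ∧
    ∃ r, 1 ≤ r ∧ r ≤ 2 ^ (J / 2) ∧ r ∣ n + k * P n ∧ (n + k * P n) / r ∈ GLf d} := ⟨_, rfl⟩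
  obtain ⟨S9, hS9⟩ : ∃ S : Set ℕ, S = {n | Rg N j n ∧ ∃ k, 1 ≤ k ∧ k ≤ K ∧
    Exc (2 ^ d) n (n + k * P n)} := ⟨_, rfl⟩
  rw [← hS3] at g3
  rw [← hS4] at g4
  rw [← hS5] at g5
  rw [← hS6] at g6
  rw [← hS7] at g7
  rw [← hS8] at g8
  rw [← hS9] at g9
  have hsub : {n | Rg N j n ∧ ¬ ((tn n = kk n * P n ∧ F n = kk n * P n) ∧ kk n ≤ K)} ⊆
      S3 ∪ (S4 ∪ (S5 ∪ (S6 ∪ (S7 ∪ (S8 ∪ S9))))) := by
    rintro n ⟨hR, hne⟩
    by_contra hnot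
    simp only [Set.mem_union, not_or] at hnot
    obtain ⟨n3, n4, n5, n6, n7, n8, n9⟩ := hnot
    have h2d : 2 * d ≤ j := by
      have h'' : 2 * (d : ℝ) ≤ j := by
        have : (0 : ℝ) ≤ d := Nat.cast_nonneg d
        linarith
      exact_mod_cast h''
    have hkK : kk n ≤ K := by
      by_contra hlt
      exact n3 (by rw [hS3]; exact ⟨hR, not_le.1 hlt⟩)
    have hk1 : 1 ≤ kk n := (kk_spec hR.two_le).1
    have hrJ : ∀ r : ℕ, r ≤ 2 ^ (j - d) → r ≤ 2 ^ (J / 2) := fun r hr =>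
      hr.trans (Nat.pow_le_pow_right (by norm_num) (by omega))
    rcases good (h := K) h2d hR hkK Nat.lt_two_pow_self.le
      (fun k hk1 hk2 q hq hqd => n4 (by rw [hS4]; exact ⟨hR, k, hk1, hk2, q, hq, hqd⟩))
      (fun k hk1 hk2 q hqp hq1 hq2 hqd => n6 (by
        rw [hS6]; exact ⟨hR, k, hk1, hk2, q, hqp, hq1, hq2, hqd⟩))
      (fun k hk r hrp hr1 hr2 hrd => n5 (by
        rw [hS5]; exact ⟨hR, k, hk, r, hrp, hr1, hr2, hrd⟩))
      (fun r hr1 hr2 hrd hG => n7 (by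
        rw [hS7]; exact ⟨hR.1, r, hr1, hrJ r hr2, hrd, hG⟩))
      (fun r hr1 hr2 hrd hG => n8 (by
        rw [hS8]; exact ⟨hR, kk n, hk1, hkK, r, hr1, hrJ r hr2, hrd, hG⟩)) with h | h
    · have hF := eqa_good (h := K) h2d hR hkK Nat.lt_two_pow_self.le
        (fun k hk1 hk2 q hq hqd => n4 (by rw [hS4]; exact ⟨hR, k, hk1, hk2, q, hq, hqd⟩))
        (fun k hk1 hk2 q hqp hq1 hq2 hqd => n6 (by
          rw [hS6]; exact ⟨hR, k, hk1, hk2, q, hqp, hq1, hq2, hqd⟩))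
        (fun k hk r hrp hr1 hr2 hrd => n5 (by
          rw [hS5]; exact ⟨hR, k, hk, r, hrp, hr1, hr2, hrd⟩)) h
      exact hne ⟨⟨h, hF⟩, hkK⟩
    · exact n9 (by rw [hS9]; exact ⟨hR, kk n, hk1, hkK, h⟩)
  have hfin : (S3 ∪ (S4 ∪ (S5 ∪ (S6 ∪ (S7 ∪ (S8 ∪ S9)))))).Finite := by
    apply (Set.finite_Iic N).subset
    intro n hn
    rw [Set.mem_Iic]
    rw [hS3, hS4, hS5, hS6, hS7, hS8, hS9] at hn
    rcases hn with h | h | h | h | h | h | h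
    · exact h.1.1.2
    · exact h.1.1.2
    · exact h.1.1.2
    · exact h.1.1.2
    · exact h.1.2
    · exact h.1.1.2
    · exact h.1.1.2
  have hcard : {n | Rg N j n ∧ ¬ ((tn n = kk n * P n ∧ F n = kk n * P n) ∧ kk n ≤ K)}.ncard ≤
      S3.ncard + (S4.ncard + (S5.ncard + (S6.ncard + (S7.ncard + (S8.ncard + S9.ncard))))) := by
    refine (Set.ncard_le_ncard hsub hfin).trans ?_
    refine (Set.ncard_union_le _ _).trans (Nat.add_le_add_left ?_ _)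
    refine (Set.ncard_union_le _ _).trans (Nat.add_le_add_left ?_ _)
    refine (Set.ncard_union_le _ _).trans (Nat.add_le_add_left ?_ _)
    refine (Set.ncard_union_le _ _).trans (Nat.add_le_add_left ?_ _)
    refine (Set.ncard_union_le _ _).trans (Nat.add_le_add_left ?_ _)
    exact Set.ncard_union_le _ _
  have hcardr : ({n | Rg N j n ∧ ¬ ((tn n = kk n * P n ∧ F n = kk n * P n) ∧ kk n ≤ K)}.ncard : ℝ) ≤
      S3.ncard + (S4.ncard + (S5.ncard + (S6.ncard + (S7.ncard + (S8.ncard + S9.ncard))))) := by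
    exact_mod_cast hcard
  have hεe : ε * (N / J) = 7 * (e * (N / J)) := by rw [he]; ring
  rw [hεe]
  linarith

theorem scale_eq (k : ℕ) {ε : ℝ} (hε : 0 < ε) : ∃ K y0 : ℕ, ∀ y N : ℕ, y0 ≤ y → N ≤ y ^ k →
    ({n | ((1 ≤ n ∧ n ≤ N) ∧ y < 4 * P n ∧ P n ≤ y) ∧ ¬ ((tn n = kk n * P n ∧ F n = kk n * P n) ∧ kk n ≤ K)}.ncard : ℝ) ≤
      ε * ({n | (1 ≤ n ∧ n ≤ N) ∧ y < 4 * P n ∧ P n ≤ y}.ncard : ℝ) := by
  classical
  obtain ⟨c, hc, y1, hW⟩ := Win_lower k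
  have hη : 0 < 1 / (2 * ((k : ℝ) + 1)) := by positivity
  obtain ⟨K, hK1, J0, hmain⟩ := sc_main_eq hη (show 0 < ε * c / 3 by positivity)
  refine ⟨K, y1 + 2 ^ (J0 + 10), fun y N hy hN => ?_⟩
  have hy1 : y1 ≤ y := (Nat.le_add_right _ _).trans hy
  have hy2 : 2 ^ (J0 + 10) ≤ y := (Nat.le_add_left _ _).trans hy
  have hy3 : 1024 ≤ y := by
    calc 1024 = 2 ^ 10 := by norm_num
      _ ≤ 2 ^ (J0 + 10) := Nat.pow_le_pow_right (by norm_num) (by omega)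
      _ ≤ y := hy2
  rcases Nat.lt_or_ge (256 * N) (y ^ 2) with hsmall | hlarge
  · -- all `n` are good
    have hempty : {n | ((1 ≤ n ∧ n ≤ N) ∧ y < 4 * P n ∧ P n ≤ y) ∧ ¬ ((tn n = kk n * P n ∧ F n = kk n * P n) ∧ kk n ≤ K)} = ∅ := by
      rw [Set.eq_empty_iff_forall_notMem]
      rintro n ⟨⟨⟨hn1, hnN⟩, hy4, hy5⟩, hne⟩
      apply hne
      have hPn : P n ≤ n := P_le hn1
      have h1 : y ^ 2 < (4 * P n) ^ 2 := Nat.pow_lt_pow_left hy4 (by norm_num)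
      have h2 : (4 * P n) ^ 2 = 16 * P n ^ 2 := by ring
      have h3 : 16 * n < P n ^ 2 := by omega
      have h4 : 64 ≤ n := by omega
      exact ⟨⟨big h4 h3, eqa_big h4 h3 (kk_big h4 h3)⟩, by rw [kk_big h4 h3]; exact hK1⟩
    rw [hempty, Set.ncard_empty]
    push_cast
    positivity
  · have hyN : y ≤ N := by nlinarith
    have hN0 : N ≠ 0 := by omega
    obtain ⟨J, hJ⟩ : ∃ J : ℕ, J = Nat.log 2 N := ⟨_, rfl⟩
    obtain ⟨i, hi⟩ : ∃ i : ℕ, i = Nat.log 2 y := ⟨_, rfl⟩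
    have hNJ : 2 ^ J ≤ N := by rw [hJ]; exact Nat.pow_log_le_self 2 hN0
    have hNJ' : N < 2 ^ (J + 1) := by rw [hJ]; exact Nat.lt_pow_succ_log_self (by norm_num) N
    have hyi : 2 ^ i ≤ y := by rw [hi]; exact Nat.pow_log_le_self 2 (by omega)
    have hyi' : y < 2 ^ (i + 1) := by rw [hi]; exact Nat.lt_pow_succ_log_self (by norm_num) y
    have hJJ0 : J0 + 10 ≤ J := by
      rw [hJ]
      exact Nat.le_log_of_pow_le (by norm_num) (hy2.trans hyN)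
    have hi10 : J0 + 10 ≤ i := by
      rw [hi]
      exact Nat.le_log_of_pow_le (by norm_num) hy2
    have hiJ : i ≤ J / 2 + 4 := by
      have h1 : 2 ^ (2 * i) < 2 ^ (J + 9) := by
        calc 2 ^ (2 * i) = (2 ^ i) ^ 2 := by rw [← pow_mul, mul_comm]
          _ ≤ y ^ 2 := Nat.pow_le_pow_left hyi 2
          _ ≤ 256 * N := hlarge
          _ < 256 * 2 ^ (J + 1) := by omega
          _ = 2 ^ (J + 9) := by rw [show (256 : ℕ) = 2 ^ 8 by norm_num, ← pow_add]; ring_nf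
      have h2 : 2 * i < J + 9 := (Nat.pow_lt_pow_iff_right (by norm_num : 1 < 2)).1 h1
      omega
    have hJk : J < (i + 1) * k := by
      have hk0 : 0 < k := by
        by_contra h0
        have : k = 0 := by omega
        subst this
        rw [pow_zero] at hN
        omega
      have h1 : 2 ^ J < 2 ^ ((i + 1) * k) := by
        calc 2 ^ J ≤ N := hNJ
          _ ≤ y ^ k := hN
          _ < (2 ^ (i + 1)) ^ k := Nat.pow_lt_pow_left hyi' (by omega)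
          _ = 2 ^ ((i + 1) * k) := by rw [← pow_mul]
      exact (Nat.pow_lt_pow_iff_right (by norm_num : 1 < 2)).1 h1
    have hηj : ∀ j : ℕ, i - 2 ≤ j → 1 / (2 * ((k : ℝ) + 1)) * J ≤ j := by
      intro j hj
      have h1 : (i : ℝ) ≤ j + 2 := by exact_mod_cast (by omega : i ≤ j + 2)
      have h2 : (J : ℝ) ≤ (i + 1) * k := by exact_mod_cast hJk.le
      have h3 : (10 : ℝ) ≤ i := by exact_mod_cast (by omega : 10 ≤ i)
      have hk0 : (0 : ℝ) ≤ k := Nat.cast_nonneg k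
      rw [div_mul_eq_mul_div, one_mul, div_le_iff₀ (by positivity)]
      nlinarith
    have hW' := hW y N hy1 hyN hN
    have hWin : ({n | (1 ≤ n ∧ n ≤ N) ∧ y < 4 * P n ∧ P n ≤ y} : Set ℕ) = Win N y := rfl
    rw [hWin]
    have hJpos : (0 : ℝ) < J := by exact_mod_cast (by omega : 0 < J)
    have hNpos : (0 : ℝ) < N := by exact_mod_cast (by omega : 0 < N)
    have hlogy : Real.log y ≤ J := by
      have h1 : Real.log y ≤ Real.log ((2 : ℝ) ^ (i + 1)) := by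
        apply Real.log_le_log
        · exact_mod_cast (by omega : 0 < y)
        · exact_mod_cast hyi'.le
      rw [Real.log_pow] at h1
      have h2 : Real.log 2 ≤ 1 := by
        have := Real.log_two_lt_d9
        linarith
      have h3 : ((i + 1 : ℕ) : ℝ) ≤ J := by exact_mod_cast (by omega : i + 1 ≤ J)
      have h4 : (0 : ℝ) ≤ ((i + 1 : ℕ) : ℝ) := Nat.cast_nonneg _
      nlinarith
    have hlogpos : 0 < Real.log y := Real.log_pos (by exact_mod_cast (by omega : 1 < y))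
    have hWlow : c * (N / J) ≤ (Win N y).ncard := by
      refine le_trans ?_ hW'
      apply mul_le_mul_of_nonneg_left _ hc.le
      exact div_le_div_of_nonneg_left hNpos.le hlogpos hlogy
    have hsub : {n | ((1 ≤ n ∧ n ≤ N) ∧ y < 4 * P n ∧ P n ≤ y) ∧ ¬ ((tn n = kk n * P n ∧ F n = kk n * P n) ∧ kk n ≤ K)} ⊆
        {n | ∃ j ∈ Ico (i - 2) (i + 1), Rg N j n ∧ ¬ ((tn n = kk n * P n ∧ F n = kk n * P n) ∧ kk n ≤ K)} := by
      rintro n ⟨⟨⟨hn1, hnN⟩, hy4, hy5⟩, hne⟩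
      have h1 : 2 ^ (i - 2) < P n := by
        have h2 : 2 ^ i = 4 * 2 ^ (i - 2) := by
          rw [show (4 : ℕ) = 2 ^ 2 by norm_num, ← pow_add]
          congr 1
          omega
        omega
      obtain ⟨j, hj, hj1, hj2⟩ := fin_range h1 (by omega : P n ≤ 2 ^ (i + 1))
      exact ⟨j, hj, ⟨⟨hn1, hnN⟩, hj1, hj2⟩, hne⟩
    have hfin : {n | ∃ j ∈ Ico (i - 2) (i + 1), Rg N j n ∧ ¬ ((tn n = kk n * P n ∧ F n = kk n * P n) ∧ kk n ≤ K)}.Finite := by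
      apply (Set.finite_Iic N).subset
      rintro n ⟨j, _, hR, _⟩
      exact hR.1.2
    have hU := union_le N (i - 2) (i + 1) (fun _ n => ¬ ((tn n = kk n * P n ∧ F n = kk n * P n) ∧ kk n ≤ K))
      (fun _ => ε * c / 3 * (N / J)) (by
        intro j hj
        have hj' := Finset.mem_Ico.1 hj
        exact hmain J (by omega) N hNJ hNJ' j (hηj j hj'.1) (by omega))
    rw [Finset.sum_const, Nat.card_Ico, nsmul_eq_mul] at hU
    have h3 : i + 1 - (i - 2) = 3 := by omega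
    rw [h3] at hU
    have h4 : ({n | ((1 ≤ n ∧ n ≤ N) ∧ y < 4 * P n ∧ P n ≤ y) ∧ ¬ ((tn n = kk n * P n ∧ F n = kk n * P n) ∧ kk n ≤ K)}.ncard : ℝ) ≤
        ({n | ∃ j ∈ Ico (i - 2) (i + 1), Rg N j n ∧ ¬ ((tn n = kk n * P n ∧ F n = kk n * P n) ∧ kk n ≤ K)}.ncard : ℝ) := by
      exact_mod_cast Set.ncard_le_ncard hsub hfin
    calc _ ≤ _ := h4
      _ ≤ _ := hU
      _ = ε * (c * (N / J)) := by push_cast; ring
      _ ≤ ε * (Win N y).ncard := mul_le_mul_of_nonneg_left hWlow hε.le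

end Pool.Agent.TNA
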