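import Pool.Agent.TNA.Blk

set_option autoImplicit false

/-!
# Sliding blocks

Recipe (model: `TN.card_smooth_bad` in Pool/Agent/TN/Block.lean). For `n` in the set let
`i = (n - 1) / h`, so `i h < n ≤ i h + h` and `i ≤ N / h`. Block `blkd (i h) (T + h) T`:
by `F_spec` there is `b`, `n < b ≤ n + F n ≤ n + T ≤ i h + (T + h)`, `Odd (b.factorization (Pd n))`,
`Pd b ≤ F n ≤ T`; `Pd n ≤ Pd b ≤ T` by `le_Pd`. So `n` is in the set of
`card_block (i h) (T + h) T M` (`¬ Works n (T + h)` by `tn_le`). Union bound over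
`i ∈ range (N / h + 1)`; the sum of `∑ k ∈ Ioc (i h) (i h + T + h), prs M T k` over `i` is at most
`((T + h) / h + 1) ∑ k ∈ Ioc 0 (N + T + h), prs M T k` because every `k` is in at most
`(T + h) / h + 1` blocks (`i h < k ≤ i h + T + h`), and `i h ≤ N`: exchange the sums
(`Finset.sum_comm'` or indicator sums), the `i` with `i h < k ≤ i h + T + h` are in
`Ioc ((k-1)/h - ((T+h)/h + 1)) ((k-1)/h)`-like sets (an interval of `(T+h)/h + 1` integers).
-/

namespace Pool.Agent.TNA

open Pool.Agent.TN Finset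

theorem slide_count (N T h k : ℕ) (hh : 1 ≤ h) (hk : 1 ≤ k) :
    ((Finset.range (N / h + 1)).filter (fun i => i * h < k ∧ k ≤ i * h + (T + h))).card ≤ (T + h) / h + 1 := by
  have h1 : (Finset.range (N / h + 1)).filter (fun i => i * h < k ∧ k ≤ i * h + (T + h)) ⊆
      Finset.Icc ((k - 1) / h - (T + h) / h) ((k - 1) / h) := by
    intro i hi
    obtain ⟨_, h2, h3⟩ := Finset.mem_filter.1 hi
    rw [Finset.mem_Icc]
    constructor
    · by_contra hcon
      have h4 : i + ((T + h) / h + 1) ≤ (k - 1) / h := by omega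
      have h5 : (i + ((T + h) / h + 1)) * h ≤ k - 1 :=
        (Nat.mul_le_mul_right h h4).trans (Nat.div_mul_le_self _ _)
      have h6 : T + h < ((T + h) / h + 1) * h := by
        have h7 := Nat.div_add_mod (T + h) h
        have h8 := Nat.mod_lt (T + h) (show 0 < h by omega)
        rw [mul_comm] at h7
        rw [add_mul, one_mul]
        omega
      rw [add_mul] at h5
      omega
    · rw [Nat.le_div_iff_mul_le (by omega)]
      omega
  refine (Finset.card_le_card h1).trans ?_
  rw [Nat.card_Icc]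
  generalize (k - 1) / h = q
  generalize (T + h) / h = c
  omega

theorem slide_sum (N T h M : ℕ) (hh : 1 ≤ h) :
    ∑ i ∈ Finset.range (N / h + 1), ∑ k ∈ Finset.Ioc (i * h) (i * h + (T + h)), prs M T k ≤
      ((T + h) / h + 1) * ∑ k ∈ Finset.Ioc 0 (N + T + h), prs M T k := by
  calc ∑ i ∈ Finset.range (N / h + 1), ∑ k ∈ Finset.Ioc (i * h) (i * h + (T + h)), prs M T k
      ≤ ∑ i ∈ Finset.range (N / h + 1), ∑ k ∈ Finset.Ioc 0 (N + T + h),
          (if i * h < k ∧ k ≤ i * h + (T + h) then prs M T k else 0) := by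
        refine Finset.sum_le_sum fun i hi => ?_
        rw [← Finset.sum_filter]
        refine Finset.sum_le_sum_of_subset ?_
        intro k hk
        rw [Finset.mem_Ioc] at hk
        rw [Finset.mem_filter, Finset.mem_Ioc]
        have h1 : i ≤ N / h := by
          rw [Finset.mem_range] at hi
          omega
        have h2 : i * h ≤ N := (Nat.mul_le_mul_right h h1).trans (Nat.div_mul_le_self _ _)
        exact ⟨⟨by omega, by omega⟩, hk⟩
    _ = ∑ k ∈ Finset.Ioc 0 (N + T + h), ∑ i ∈ Finset.range (N / h + 1),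
          (if i * h < k ∧ k ≤ i * h + (T + h) then prs M T k else 0) := Finset.sum_comm
    _ ≤ ∑ k ∈ Finset.Ioc 0 (N + T + h), ((T + h) / h + 1) * prs M T k := by
        refine Finset.sum_le_sum fun k hk => ?_
        rw [← Finset.sum_filter, Finset.sum_const, smul_eq_mul]
        rw [Finset.mem_Ioc] at hk
        exact Nat.mul_le_mul_right _ (slide_count N T h k hh (by omega))
    _ = ((T + h) / h + 1) * ∑ k ∈ Finset.Ioc 0 (N + T + h), prs M T k := by
        rw [Finset.mul_sum]

/-- sum over the blocks `(i h, i h + T + h]`, `i ≤ N / h` -/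
theorem card_slide (N T h M : ℕ) (hh : 1 ≤ h) :
    {n | (1 ≤ n ∧ n ≤ N) ∧ ¬ IsSquare n ∧ F n ≤ T ∧ T + h < tn n}.ncard ≤
      (N / h + 1) * (Nat.primesLE M).card +
        ((T + h) / h + 1) * ∑ k ∈ Finset.Ioc 0 (N + T + h), prs M T k := by
  have hsub : {n | (1 ≤ n ∧ n ≤ N) ∧ ¬ IsSquare n ∧ F n ≤ T ∧ T + h < tn n} ⊆
      ⋃ i ∈ Finset.range (N / h + 1), {n | n ∈ blkd (i * h) (T + h) T ∧ ¬ IsSquare n ∧
        (∃ b ∈ blkd (i * h) (T + h) T, n < b ∧ Odd (b.factorization (Pd n))) ∧ ¬ Works n (T + h)} := by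
    rintro n ⟨⟨h1, h2⟩, h3, h4, h5⟩
    obtain ⟨b, hb1, hb2, hb3, hb4⟩ := F_spec h1 h3
    have hi : (n - 1) / h ∈ Finset.range (N / h + 1) := by
      rw [Finset.mem_range]
      have : (n - 1) / h ≤ N / h := Nat.div_le_div_right (by omega)
      omega
    have h6 := Nat.div_add_mod (n - 1) h
    have h7 := Nat.mod_lt (n - 1) (show 0 < h by omega)
    rw [mul_comm] at h6
    have h8 := le_Pd hb3
    refine Set.mem_biUnion hi ⟨?_, h3, ⟨b, ?_, hb1, hb3⟩, ?_⟩
    · refine Finset.mem_filter.2 ⟨Finset.mem_Ioc.2 ⟨by omega, by omega⟩, by omega⟩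
    · refine Finset.mem_filter.2 ⟨Finset.mem_Ioc.2 ⟨by omega, by omega⟩, by omega⟩
    · intro hw
      have := tn_le (by omega) hw
      omega
  have hfin : ∀ i ∈ Finset.range (N / h + 1), {n | n ∈ blkd (i * h) (T + h) T ∧ ¬ IsSquare n ∧
        (∃ b ∈ blkd (i * h) (T + h) T, n < b ∧ Odd (b.factorization (Pd n))) ∧ ¬ Works n (T + h)}.Finite := by
    intro i _
    exact Set.Finite.subset (blkd (i * h) (T + h) T).finite_toSet (by intro n hn; exact hn.1)
  have hfinU := Set.Finite.biUnion (Finset.finite_toSet (Finset.range (N / h + 1))) hfin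
  refine (Set.ncard_le_ncard hsub hfinU).trans ?_
  refine (Finset.set_ncard_biUnion_le _ _).trans ?_
  refine (Finset.sum_le_sum fun i _ => card_block (i * h) (T + h) T M).trans ?_
  rw [Finset.sum_add_distrib, Finset.sum_const, Finset.card_range, smul_eq_mul]
  exact Nat.add_le_add_left (slide_sum N T h M hh) _

end Pool.Agent.TNA
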